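import Mathlib

/-!
The Hilbert function of the complete intersection curve of `n` hypersurfaces of degree `t`.
-/

set_option autoImplicit false

namespace Pool.Agent.TH176.FB

/-- The number of the pairs `(d, x)`, where `d` is a vector with `n` entries in `[0, t)`, `x ≥ 0` and
`|d| + x ≤ l`. -/
def Hc (n t l : ℕ) : ℕ := ∑ d : Fin n → Fin t, (l + 1 - ∑ i, (d i : ℕ))

lemma Hc_add (n t l : ℕ) : Hc n t (l + t) ≤ Hc n t l + t ^ (n + 1) := by
  unfold Hc
  have h1 : t ^ (n + 1) = ∑ _d : Fin n → Fin t, t := by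
    rw [Finset.sum_const, Finset.card_univ, Fintype.card_fun, Fintype.card_fin, Fintype.card_fin,
      smul_eq_mul, pow_succ]
  rw [h1, ← Finset.sum_add_distrib]
  refine Finset.sum_le_sum fun d _ => ?_
  omega

lemma Hc_mono (n t : ℕ) {l l' : ℕ} (h : l ≤ l') : Hc n t l ≤ Hc n t l' := by
  unfold Hc
  refine Finset.sum_le_sum fun d _ => ?_
  omega

lemma Hc_le (n t l : ℕ) : Hc n t l ≤ t ^ n * (l + 1) := by
  unfold Hc
  have h1 : t ^ n * (l + 1) = ∑ _d : Fin n → Fin t, (l + 1) := by
    rw [Finset.sum_const, Finset.card_univ, Fintype.card_fun, Fintype.card_fin, Fintype.card_fin,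
      smul_eq_mul]
  rw [h1]
  refine Finset.sum_le_sum fun d _ => ?_
  omega

lemma Hc_add_mul (n t l i : ℕ) : Hc n t (l + t * i) ≤ Hc n t l + t ^ (n + 1) * i := by
  induction i with
  | zero => simp
  | succ i ih =>
    have h1 := Hc_add n t (l + t * i)
    have h2 : l + t * (i + 1) = l + t * i + t := by ring
    rw [h2, Nat.mul_succ]
    omega

end Pool.Agent.TH176.FB
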