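import Mathlib
import Pool.Agent.H15.G.R_seed8.H938R2.Fat
import Pool.Agent.H15.G.R_seed8.H350R3.MG.PLem
import Pool.Agent.H15.G.R_seed8.H350R3.MG.Ops

set_option autoImplicit false

/-!
Taylor coefficients and the powers of the prime ideal of a point: for a form `F` of degree `d`
and a nonzero vector `v`, the polynomial `F` lies in the `m`-th power of the homogeneous prime ideal
of the point `[v]` if and only if all Taylor coefficients of `F` at `v` of order less than `m`
vanish.
-/

namespace Pool.Agent.TH176.FB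

open MvPolynomial
open scoped LinearAlgebra.Projectivization

/-- the translation by `v` -/
noncomputable def shiftJ25 {n : ℕ} (v : Fin n → ℂ) :
    MvPolynomial (Fin n) ℂ →ₐ[ℂ] MvPolynomial (Fin n) ℂ :=
  aeval (fun j => (X j + C (v j) : MvPolynomial (Fin n) ℂ))

theorem coeff_zero_shiftJ25 {n : ℕ} (v : Fin n → ℂ) (F : MvPolynomial (Fin n) ℂ) :
    coeff 0 (shiftJ25 v F) = eval v F := by
  rw [← constantCoeff_eq, shiftJ25]
  induction F using MvPolynomial.induction_on with
  | C a => simp [algebraMap_eq]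
  | add p q hp hq => rw [map_add, map_add, hp, hq, map_add]
  | mul_X p i hp =>
    rw [map_mul, map_mul, hp, map_mul, aeval_X, eval_X, map_add, constantCoeff_X,
      constantCoeff_C, zero_add]

theorem shiftJ25_mem {n : ℕ} (v : Fin n → ℂ) {F : MvPolynomial (Fin n) ℂ}
    (hF : F ∈ H350MG.pointIdeal v) : shiftJ25 v F ∈ idealOfVars (Fin n) ℂ := by
  have h1 : shiftJ25 v F ∈ idealOfVars (Fin n) ℂ ^ 1 := by
    rw [mem_pow_idealOfVars_iff']
    intro x hx
    have hx0 : x = 0 := by
      have : x.degree = 0 := by omega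
      exact (Finsupp.degree_eq_zero_iff x).1 this
    rw [hx0, coeff_zero_shiftJ25]
    have := hF 1
    simpa using this
  simpa using h1

theorem shiftJ25_mem_pow {n : ℕ} (v : Fin n → ℂ) (m : ℕ) {F : MvPolynomial (Fin n) ℂ}
    (hF : F ∈ H350MG.pointIdeal v ^ m) : shiftJ25 v F ∈ idealOfVars (Fin n) ℂ ^ m := by
  have h1 : Ideal.map (shiftJ25 v).toRingHom (H350MG.pointIdeal v) ≤ idealOfVars (Fin n) ℂ := by
    rw [Ideal.map_le_iff_le_comap]
    intro G hG
    exact shiftJ25_mem v hG
  have h2 : Ideal.map (shiftJ25 v).toRingHom (H350MG.pointIdeal v ^ m) ≤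
      idealOfVars (Fin n) ℂ ^ m := by
    rw [Ideal.map_pow]
    exact Ideal.pow_right_mono h1 m
  exact h2 (Ideal.mem_map_of_mem (shiftJ25 v).toRingHom hF)

theorem vanishes_of_mem_pow {n : ℕ} (v : Fin n → ℂ) (m : ℕ) {F : MvPolynomial (Fin n) ℂ}
    (hF : F ∈ H350MG.pointIdeal v ^ m) : Pool.Agent.H938R2.VanishesToOrder m v F := by
  have h := shiftJ25_mem_pow v m hF
  rw [mem_pow_idealOfVars_iff'] at h
  intro s hs
  exact h s (by omega)

/-- Leibniz rule for the powers of the directional derivative -/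
theorem Dpow_mul_X {n : ℕ} (v : Fin n → ℂ) (i : Fin n) (k : ℕ) (F : MvPolynomial (Fin n) ℂ) :
    (H350MG.D v ^ (k + 1)) (F * X i) =
      (H350MG.D v ^ (k + 1)) F * X i + C (v i) * (((k + 1 : ℕ) : ℂ) • (H350MG.D v ^ k) F) := by
  have h2 : H350MG.D v (X i) = C (v i) := by
    rw [H350MG.D_apply, Finset.sum_eq_single i]
    · rw [pderiv_X_self, smul_eq_C_mul, mul_one]
    · intro j _ hj; rw [pderiv_X_of_ne hj.symm, smul_zero]
    · simp
  induction k generalizing F with
  | zero =>
    simp only [zero_add, pow_one, pow_zero, Module.End.one_apply, Nat.cast_one, one_smul]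
    rw [H350MG.D_mul, h2]
    ring
  | succ k ih =>
    rw [pow_succ, Module.End.mul_apply, H350MG.D_mul, h2, map_add, ih,
      ← Module.End.mul_apply, ← pow_succ, ← Module.End.mul_apply, ← pow_succ]
    have h3 : (H350MG.D v ^ (k + 1)) (F * C (v i)) = C (v i) * (H350MG.D v ^ (k + 1)) F := by
      rw [mul_comm, ← smul_eq_C_mul, map_smul, smul_eq_C_mul]
    rw [h3]
    push_cast
    rw [add_smul (((k : ℂ) + 1)) 1, one_smul]
    ring

/-- Taylor's formula: the translation is the exponential of the directional derivative -/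
theorem shiftJ25_eq {n : ℕ} (v : Fin n → ℂ) (F : MvPolynomial (Fin n) ℂ) :
    ∃ N0 : ℕ, (∀ k, N0 ≤ k → (H350MG.D v ^ k) F = 0) ∧
      ∀ N, N0 ≤ N → shiftJ25 v F =
        ∑ k ∈ Finset.range N, ((k.factorial : ℂ)⁻¹) • (H350MG.D v ^ k) F := by
  induction F using MvPolynomial.induction_on with
  | C a =>
    have h0 : ∀ k, 1 ≤ k → (H350MG.D v ^ k) (C a) = 0 := by
      intro k hk
      exact H350MG.Dpow_zero_hom (j := 0) (by omega)
        ((mem_homogeneousSubmodule _ _).2 (isHomogeneous_C _ _))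
    refine ⟨1, h0, ?_⟩
    intro N hN
    rw [Finset.sum_eq_single 0]
    · simp [shiftJ25, algebraMap_eq]
    · intro k _ hk
      rw [h0 k (by omega), smul_zero]
    · intro h
      exact absurd (Finset.mem_range.2 (by omega)) h
  | add p q hp hq =>
    obtain ⟨N1, h1, h1'⟩ := hp
    obtain ⟨N2, h2, h2'⟩ := hq
    refine ⟨max N1 N2, ?_, ?_⟩
    · intro k hk
      rw [map_add, h1 k (le_trans (le_max_left _ _) hk), h2 k (le_trans (le_max_right _ _) hk),
        add_zero]
    · intro N hN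
      rw [map_add, h1' N (le_trans (le_max_left _ _) hN), h2' N (le_trans (le_max_right _ _) hN),
        ← Finset.sum_add_distrib]
      refine Finset.sum_congr rfl fun k _ => ?_
      rw [map_add, smul_add]
  | mul_X p i hp =>
    obtain ⟨N1, h1, h1'⟩ := hp
    refine ⟨N1 + 1, ?_, ?_⟩
    · intro k hk
      obtain ⟨k', rfl⟩ : ∃ k', k = k' + 1 := ⟨k - 1, by omega⟩
      rw [Dpow_mul_X, h1 (k' + 1) (by omega), h1 k' (by omega)]
      simp
    · intro N hN
      obtain ⟨N', rfl⟩ : ∃ N', N = N' + 1 := ⟨N - 1, by omega⟩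
      have e1 : ∑ k ∈ Finset.range (N' + 1), ((k.factorial : ℂ)⁻¹) • (H350MG.D v ^ k) (p * X i) =
          (∑ k ∈ Finset.range (N' + 1), ((k.factorial : ℂ)⁻¹) • (H350MG.D v ^ k) p) * X i +
          C (v i) * ∑ k ∈ Finset.range N', ((k.factorial : ℂ)⁻¹) • (H350MG.D v ^ k) p := by
        rw [Finset.sum_range_succ', Finset.sum_range_succ' _ N']
        rw [add_mul, Finset.sum_mul, Finset.mul_sum]
        rw [add_right_comm, ← Finset.sum_add_distrib]
        congr 1
        · refine Finset.sum_congr rfl fun k _ => ?_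
          rw [Dpow_mul_X, smul_add, smul_mul_assoc, mul_smul_comm, smul_smul, mul_smul_comm]
          congr 2
          rw [Nat.factorial_succ]
          push_cast
          have ha : ((k : ℂ) + 1) ≠ 0 := Nat.cast_add_one_ne_zero k
          have hb : (k.factorial : ℂ) ≠ 0 := Nat.cast_ne_zero.2 (Nat.factorial_ne_zero k)
          field_simp
        · simp
      rw [e1, ← h1' (N' + 1) (by omega), ← h1' N' (by omega), map_mul]
      have e2 : shiftJ25 v (X i) = X i + C (v i) := by simp [shiftJ25]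
      rw [e2]
      ring

theorem mem_pow_of_vanishes {n : ℕ} {v : Fin n → ℂ} (hv : v ≠ 0) {m d : ℕ} (hm : m ≤ d + 1)
    {F : MvPolynomial (Fin n) ℂ} (hF : F ∈ homogeneousSubmodule (Fin n) ℂ d)
    (h : Pool.Agent.H938R2.VanishesToOrder m v F) : F ∈ H350MG.pointIdeal v ^ m := by
  rcases Nat.eq_zero_or_pos m with hm0 | hm0
  · subst hm0; simp
  rw [H350MG.mem_pow_iff hv hm hF]
  have hD : (H350MG.D v ^ (d + 1 - m)) F ∈ H350MG.Rj ℂ (Fin n) (m - 1) := by
    have := H350MG.Dpow_hom (v := v) (d + 1 - m) hF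
    rwa [show d - (d + 1 - m) = m - 1 by omega] at this
  ext s
  rw [coeff_zero]
  by_cases hs : s.degree = m - 1
  swap
  · exact ((mem_homogeneousSubmodule _ _).1 hD).coeff_eq_zero hs
  have h1 := h s (by omega)
  obtain ⟨N0, h2, h3⟩ := shiftJ25_eq v F
  have h4 := h3 (max N0 (d + 1)) (le_max_left _ _)
  have h5 : coeff s (shiftJ25 v F) = 0 := h1
  rw [h4, coeff_sum, Finset.sum_eq_single (d + 1 - m)] at h5
  · rw [coeff_smul, smul_eq_mul, mul_eq_zero] at h5
    rcases h5 with h5 | h5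
    · exfalso
      have hb : (((d + 1 - m).factorial : ℕ) : ℂ) ≠ 0 :=
        Nat.cast_ne_zero.2 (Nat.factorial_ne_zero _)
      exact (inv_ne_zero hb) h5
    · exact h5
  · intro k _ hk
    rw [coeff_smul, smul_eq_mul]
    have h6 : coeff s ((H350MG.D v ^ k) F) = 0 := by
      by_cases hkd : d < k
      · rw [H350MG.Dpow_zero_hom hkd hF, coeff_zero]
      · have h7 := H350MG.Dpow_hom (v := v) k hF
        exact ((mem_homogeneousSubmodule _ _).1 h7).coeff_eq_zero (by omega)
    rw [h6, mul_zero]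
  · intro h6
    exact absurd (Finset.mem_range.2 (lt_of_lt_of_le (by omega) (le_max_right N0 (d + 1)))) h6

theorem mem_pow_iff_vanishes {n : ℕ} {v : Fin n → ℂ} (hv : v ≠ 0) {m d : ℕ}
    {F : MvPolynomial (Fin n) ℂ} (hF : F ∈ homogeneousSubmodule (Fin n) ℂ d) :
    F ∈ H350MG.pointIdeal v ^ m ↔ Pool.Agent.H938R2.VanishesToOrder m v F := by
  constructor
  · exact vanishes_of_mem_pow v m
  · intro h
    by_cases hm : m ≤ d + 1
    · exact mem_pow_of_vanishes hv hm hF h
    · have h1 : F ∈ H350MG.pointIdeal v ^ (d + 1) :=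
        mem_pow_of_vanishes hv le_rfl hF (fun s hs => h s (by omega))
      rw [H350MG.eq_zero_of_mem_pow (j := d) (by omega) h1 hF]
      exact Ideal.zero_mem _

open MvPolynomial in
theorem forms_eq_symbolic {n r m d : ℕ} (v : Fin r → Fin (n + 1) → ℂ) (hv : ∀ i, v i ≠ 0) :
    (homogeneousSubmodule (Fin (n + 1)) ℂ d ⊓ Submodule.restrictScalars ℂ
      (⨅ i, Pool.Agent.H350R3.MG.primeIdeal (Projectivization.mk ℂ (v i) (hv i)) ^ m) :
        Submodule ℂ (MvPolynomial (Fin (n + 1)) ℂ)) =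
      Pool.Agent.H938R2.forms (n + 1) d (fun _ : Fin r => m) v := by
  ext F
  rw [Submodule.mem_inf, Submodule.restrictScalars_mem, Submodule.mem_iInf,
    Pool.Agent.H938R2.mem_forms]
  have key : F ∈ homogeneousSubmodule (Fin (n + 1)) ℂ d → ∀ i,
      (F ∈ Pool.Agent.H350R3.MG.primeIdeal (Projectivization.mk ℂ (v i) (hv i)) ^ m ↔
        Pool.Agent.H938R2.VanishesToOrder m (v i) F) := by
    intro hF i
    rw [Pool.Agent.H350R3.MG.primeIdeal_mk]
    exact mem_pow_iff_vanishes (hv i) hF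
  constructor
  · rintro ⟨h1, h2⟩
    exact ⟨(mem_homogeneousSubmodule _ _).1 h1, fun i => (key h1 i).1 (h2 i)⟩
  · rintro ⟨h1, h2⟩
    have h1' : F ∈ homogeneousSubmodule (Fin (n + 1)) ℂ d := (mem_homogeneousSubmodule _ _).2 h1
    exact ⟨h1', fun i => (key h1' i).2 (h2 i)⟩

end Pool.Agent.TH176.FB
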