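import Pool.Agent.H15.G.R_seed8.TH176.FB.Final2

/-!
Fat points: the forms of degree `d` with multiplicity `m` at `t ^ N` general points.
-/

set_option autoImplicit false

namespace Pool.Agent.TH176.FB

open MvPolynomial Finset Pool.Agent.H938R2

namespace Fat

/-- The real part of the coefficients. -/
noncomputable def re {n : ℕ} (F : MvPolynomial (Fin n) ℂ) : MvPolynomial (Fin n) ℝ :=
  ∑ α ∈ F.support, monomial α (coeff α F).re

/-- The imaginary part of the coefficients. -/
noncomputable def im {n : ℕ} (F : MvPolynomial (Fin n) ℂ) : MvPolynomial (Fin n) ℝ :=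
  ∑ α ∈ F.support, monomial α (coeff α F).im

lemma coeff_re {n : ℕ} (F : MvPolynomial (Fin n) ℂ) (α : Fin n →₀ ℕ) :
    coeff α (re F) = (coeff α F).re := by
  classical
  unfold re
  rw [coeff_sum]
  simp only [coeff_monomial]
  rw [Finset.sum_ite_eq']
  split_ifs with h
  · rfl
  · rw [notMem_support_iff.1 h, Complex.zero_re]

lemma coeff_im {n : ℕ} (F : MvPolynomial (Fin n) ℂ) (α : Fin n →₀ ℕ) :
    coeff α (im F) = (coeff α F).im := by
  classical
  unfold im
  rw [coeff_sum]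
  simp only [coeff_monomial]
  rw [Finset.sum_ite_eq']
  split_ifs with h
  · rfl
  · rw [notMem_support_iff.1 h, Complex.zero_im]

lemma totalDegree_re {n : ℕ} (F : MvPolynomial (Fin n) ℂ) : (re F).totalDegree ≤ F.totalDegree := by
  refine totalDegree_finsetSum_le fun α hα => ?_
  exact (totalDegree_monomial_le _ _).trans (le_totalDegree hα)

lemma totalDegree_im {n : ℕ} (F : MvPolynomial (Fin n) ℂ) : (im F).totalDegree ≤ F.totalDegree := by
  refine totalDegree_finsetSum_le fun α hα => ?_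
  exact (totalDegree_monomial_le _ _).trans (le_totalDegree hα)

lemma shift_sum {K : Type} [Field K] {n : ℕ} (A : Finset (Fin n →₀ ℕ)) (c : (Fin n →₀ ℕ) → K)
    (p : Fin n → K) (a : Fin n →₀ ℕ) :
    coeff a (shift p (∑ α ∈ A, monomial α (c α))) =
      ∑ α ∈ A, c α * ∏ i, (((α i).choose (a i) : K) * p i ^ (α i - a i)) := by
  rw [map_sum, coeff_sum]
  refine Finset.sum_congr rfl fun α _ => ?_
  have h1 : monomial α (c α) = c α • monomial α (1 : K) := by
    rw [smul_monomial, smul_eq_mul, mul_one]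
  rw [h1, map_smul, coeff_smul, J6.shift_coeff, smul_eq_mul]

lemma shift_re {n : ℕ} (F : MvPolynomial (Fin n) ℂ) (p : Fin n → ℝ) (a : Fin n →₀ ℕ) :
    coeff a (shift p (re F)) = (coeff a (shift (fun i => (p i : ℂ)) F)).re := by
  have h1 : coeff a (shift (fun i => (p i : ℂ)) F) =
      ∑ α ∈ F.support, coeff α F * ∏ i, (((α i).choose (a i) : ℂ) * (p i : ℂ) ^ (α i - a i)) := by
    conv_lhs => rw [F.as_sum]
    exact shift_sum _ _ _ _
  rw [h1, re, shift_sum, Complex.re_sum]
  refine Finset.sum_congr rfl fun α _ => ?_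
  have h2 : ∏ i, (((α i).choose (a i) : ℂ) * (p i : ℂ) ^ (α i - a i)) =
      ((∏ i, (((α i).choose (a i) : ℝ) * p i ^ (α i - a i)) : ℝ) : ℂ) := by
    push_cast
    rfl
  rw [h2, Complex.re_mul_ofReal]

lemma shift_im {n : ℕ} (F : MvPolynomial (Fin n) ℂ) (p : Fin n → ℝ) (a : Fin n →₀ ℕ) :
    coeff a (shift p (im F)) = (coeff a (shift (fun i => (p i : ℂ)) F)).im := by
  have h1 : coeff a (shift (fun i => (p i : ℂ)) F) =
      ∑ α ∈ F.support, coeff α F * ∏ i, (((α i).choose (a i) : ℂ) * (p i : ℂ) ^ (α i - a i)) := by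
    conv_lhs => rw [F.as_sum]
    exact shift_sum _ _ _ _
  rw [h1, im, shift_sum, Complex.im_sum]
  refine Finset.sum_congr rfl fun α _ => ?_
  have h2 : ∏ i, (((α i).choose (a i) : ℂ) * (p i : ℂ) ^ (α i - a i)) =
      ((∏ i, (((α i).choose (a i) : ℝ) * p i ^ (α i - a i)) : ℝ) : ℂ) := by
    push_cast
    rfl
  rw [h2, Complex.im_mul_ofReal]

/-- No affine polynomial over `ℂ`. -/
lemma cplx {n r k e : ℕ} (p : Fin r → Fin n → ℝ)
    (h : ∀ F : MvPolynomial (Fin n) ℝ, F.totalDegree ≤ k →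
      (∀ i, ∀ a : Fin n →₀ ℕ, a.degree ≤ e → coeff a (shift (p i) F) = 0) → F = 0)
    (F : MvPolynomial (Fin n) ℂ) (hF : F.totalDegree ≤ k)
    (hv : ∀ i, ∀ a : Fin n →₀ ℕ, a.degree ≤ e →
      coeff a (shift (fun j => (p i j : ℂ)) F) = 0) : F = 0 := by
  have h1 := h (re F) ((totalDegree_re F).trans hF) fun i a ha => by
    rw [shift_re, hv i a ha, Complex.zero_re]
  have h2 := h (im F) ((totalDegree_im F).trans hF) fun i a ha => by
    rw [shift_im, hv i a ha, Complex.zero_im]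
  ext α
  rw [coeff_zero]
  apply Complex.ext
  · rw [← coeff_re, h1, coeff_zero, Complex.zero_re]
  · rw [← coeff_im, h2, coeff_zero, Complex.zero_im]

lemma totalDegree_dehom {n k : ℕ} {F : MvPolynomial (Fin (n + 2)) ℂ} (hF : F.IsHomogeneous k) :
    (Elim.dehom n F).totalDegree ≤ k := by
  rw [F.as_sum, map_sum]
  refine totalDegree_finsetSum_le fun β hβ => ?_
  rw [Elim.dehom_monomial]
  refine (totalDegree_monomial_le _ _).trans ?_
  have h2 : β.degree = k := (isHomogeneous_iff F).mp hF β hβ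
  rw [Finsupp.degree_eq_sum, Fin.sum_univ_succ] at h2
  have h3 : ((Finsupp.tail β).sum fun _ => id) = (Finsupp.tail β).degree := by
    rw [Finsupp.degree_apply]
    rfl
  rw [h3, Finsupp.degree_eq_sum]
  simp only [Finsupp.tail_apply]
  omega

lemma forms_bot {n r k m : ℕ} (hm : 1 ≤ m) (p : Fin r → Fin (n + 1) → ℂ)
    (h : ∀ F : MvPolynomial (Fin (n + 1)) ℂ, F.totalDegree ≤ k →
      (∀ i, ∀ a : Fin (n + 1) →₀ ℕ, a.degree ≤ m - 1 → coeff a (shift (p i) F) = 0) → F = 0) :
    forms (n + 2) k (fun _ => m) (fun i => Fin.cons 1 (p i)) = ⊥ := by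
  rw [eq_bot_iff]
  intro F hF
  rw [Submodule.mem_bot]
  have h1 : Elim.dehom n F = 0 := by
    apply h
    · exact totalDegree_dehom hF.1
    · intro i a ha
      exact Elim.vanishes_dehom (hF.2 i) a (by show a.degree < m; omega)
  ext β
  rw [coeff_zero]
  by_cases hβ : β.degree = k
  · rw [← Elim.coeff_dehom hF.1 β hβ, h1, coeff_zero]
  · by_contra hne
    exact hβ ((isHomogeneous_iff F).mp hF.1 β (mem_support_iff.mpr hne))

/-- No forms at general points if there is no real polynomial for some points. -/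
lemma general_bot {n r k m : ℕ} (hm : 1 ≤ m) (p : Fin r → Fin (n + 1) → ℂ)
    (h : ∀ F : MvPolynomial (Fin (n + 1)) ℂ, F.totalDegree ≤ k →
      (∀ i, ∀ a : Fin (n + 1) →₀ ℕ, a.degree ≤ m - 1 → coeff a (shift (p i) F) = 0) → F = 0) :
    ForGeneral (n + 2) r (fun p => forms (n + 2) k (fun _ => m) p = ⊥) := by
  have h1 := forms_semicontinuous (n := n + 2) (d := k) (m := fun _ : Fin r => m)
    (fun i => Fin.cons 1 (p i)) 0 (by rw [forms_bot hm p h, finrank_bot])
  refine h1.mono fun q hq => ?_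
  have h2 : Module.finrank ℂ (forms (n + 2) k (fun _ => m) q) = 0 := by omega
  have : FiniteDimensional ℂ (forms (n + 2) k (fun _ : Fin r => m) q) := by
    have h3 : forms (n + 2) k (fun _ : Fin r => m) q ≤ homogeneousSubmodule (Fin (n + 2)) ℂ k :=
      fun F hF => hF.1
    exact Submodule.finiteDimensional_of_le h3
  exact Submodule.finrank_eq_zero.1 h2

/-- Maximal conditions from emptiness. -/
lemma max_of_bot {n r k m : ℕ}
    (h : ForGeneral (n + 2) r (fun p => forms (n + 2) k (fun _ => m) p = ⊥)) :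
    ForGeneral (n + 2) r (fun p => Module.finrank ℂ (forms (n + 2) k (fun _ => m) p) =
      (k + (n + 1)).choose (n + 1) - r * (m + n).choose (n + 1)) := by
  refine (h.and (forGeneral_ne_zero (by omega))).mono fun p hp => ?_
  have h8 := finrank_forms_ge (n + 1) k (fun _ : Fin r => m) p hp.2
  have h9 : m + (n + 1) - 1 = m + n := by omega
  have h10 := hp.1
  rw [h10, finrank_bot, Finset.sum_const, Finset.card_univ, Fintype.card_fin, smul_eq_mul,
    h9] at h8
  rw [h10, finrank_bot]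
  omega

end Fat

open Fat

/-- Independence. -/
theorem fat_indep (n t m k : ℕ) (ht : 2 ≤ t) (hk : 2 * t * m + n * t ≤ 2 * k + n + 2) :
    ForGeneral (n + 2) (t ^ (n + 1)) (fun p =>
      Module.finrank ℂ (forms (n + 2) k (fun _ => m) p) =
        (k + (n + 1)).choose (n + 1) - t ^ (n + 1) * (m + n).choose (n + 1)) := by
  have hmk : m ≤ k + 1 := by
    have h1 : 2 * 2 * m ≤ 2 * t * m := Nat.mul_le_mul_right _ (by omega)
    have h2 : n * 2 ≤ n * t := Nat.mul_le_mul_left _ ht
    omega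
  have h1 := (Elim.main n (t ^ (n + 1)) k (fun _ : Fin n => t) (fun _ => by omega)
    (fun i => k + 1 - (k + 1 - m))).2.2 (fun l => J10.num n (t ^ (n + 1)) (k + 1 - m) k t
      (fun _ => k + 1 - m) ht (fun _ => le_rfl) le_rfl (by
        obtain ⟨w, hw⟩ : ∃ w, k + 1 = m + w := ⟨k + 1 - m, by omega⟩
        have h2 : k + 1 - m = w := by omega
        obtain ⟨s, rfl⟩ : ∃ s, t = s + 1 := ⟨t - 1, by omega⟩
        rw [h2, Nat.add_sub_cancel]
        zify at hk hw ⊢
        have h3 : (k : ℤ) = m + w - 1 := by linarith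
        rw [h3] at hk ⊢
        nlinarith) l)
  have h3 : k + 1 - (k + 1 - m) = m := by omega
  simp only [h3, Finset.sum_const, Finset.card_univ, Fintype.card_fin, smul_eq_mul] at h1
  have h6 : (fun _ : Fin (t ^ (n + 1)) => k + 1 - (k + 1 - m)) = fun _ => m := funext fun _ => h3
  rw [h6] at h1
  refine h1.mono fun p hp => ?_
  have h5 : Module.finrank ℂ (forms (n + 2) k (fun _ => m) p) +
    t ^ (n + 1) * (m + n).choose (n + 1) = (k + (n + 1)).choose (n + 1) := hp
  omega

/-- No forms of degree smaller than `t * m`. -/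
theorem fat_low (n t m k : ℕ) (ht : 1 ≤ t) (hk : k < t * m) :
    ForGeneral (n + 2) (t ^ (n + 1)) (fun p =>
      Module.finrank ℂ (forms (n + 2) k (fun _ => m) p) =
        (k + (n + 1)).choose (n + 1) - t ^ (n + 1) * (m + n).choose (n + 1)) := by
  classical
  have hm : 1 ≤ m := by
    by_contra h
    have : m = 0 := by omega
    rw [this, mul_zero] at hk
    omega
  obtain ⟨Z, hZ, hV⟩ := exists_vanish (K := ℂ) (n + 1) t ht
  have hV' := hV (m - 1) k (by rw [Nat.sub_add_cancel hm]; exact hk)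
  let e : Fin (t ^ (n + 1)) ≃ Z := (finCongr hZ.symm).trans Z.equivFin.symm
  refine max_of_bot (general_bot hm (fun i => (e i : Fin (n + 1) → ℂ)) fun F hF h => ?_)
  refine hV' F hF fun q hq a ha => ?_
  have h1 := h (e.symm ⟨q, hq⟩) a ha
  rwa [Equiv.apply_symm_apply] at h1

/-- The numerical conditions for the number `c` (`n + 2` variables) and the multiplicity `m`. -/
def NumF (n t c m : ℕ) : Prop :=
  ∃ i₁ q : ℕ, 1 ≤ q ∧ i₁ + c / t ≤ q ∧ n ≤ t ^ (n + 1) ∧
    (∀ i, i₁ ≤ i → Hc n t (t * i + c) + n * q ≤ t ^ (n + 1) * i) ∧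
    (∀ b, m < b + i₁ → t * b ≤ t * m + c →
      (Hc n t (t * m + c - t * b) : ℤ) ≤ (n : ℤ) * ((m : ℤ) + 1 - b - q) + b +
        (((t ^ (n + 1) : ℕ) : ℤ) - n) * ((m - b : ℕ) : ℤ))

/-- No forms in the window. -/
theorem fat_window (n t m c : ℕ) (ht : 1 ≤ t) (hm : 1 ≤ m) (hnum : NumF n t c m) :
    ForGeneral (n + 2) (t ^ (n + 1)) (fun p =>
      Module.finrank ℂ (forms (n + 2) (t * m + c) (fun _ => m) p) =
        (t * m + c + (n + 1)).choose (n + 1) - t ^ (n + 1) * (m + n).choose (n + 1)) := by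
  obtain ⟨i₁, q, hq1, hq, hn, hR1, hR2⟩ := hnum
  obtain ⟨P, _, hP2⟩ := tmodel2 n t m c i₁ q (t ^ (n + 1)) ht le_rfl hn hq1 hq hR1 hR2
  obtain ⟨p, hp, hp2⟩ := limit t (t * m + c) (m - 1) ht P
    (fun G hG h => hP2 G hG fun i a ha => h i a (by omega))
  exact max_of_bot (general_bot hm (fun i j => (p i j : ℂ)) fun F hF h => cplx p hp2 F hF h)

/-- No forms of degree `j + t * (m - 1)` if there is no hypersurface of degree `j` through the
points. -/
theorem fat_simple (n t m j : ℕ) (ht : 1 ≤ t) (hm : 1 ≤ m)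
    (hj : (j + n + 1).choose (n + 1) ≤ t ^ (n + 1)) :
    ForGeneral (n + 2) (t ^ (n + 1)) (fun p =>
      Module.finrank ℂ (forms (n + 2) (j + t * (m - 1)) (fun _ => m) p) =
        (j + t * (m - 1) + (n + 1)).choose (n + 1) - t ^ (n + 1) * (m + n).choose (n + 1)) := by
  obtain ⟨P, _, hP2⟩ := tmodel n t j (t ^ (n + 1)) ht le_rfl hj
  obtain ⟨p, hp, hp2⟩ := limit t (j + t * (m - 1)) (m - 1) ht P (hP2 (m - 1))
  exact max_of_bot (general_bot hm (fun i j => (p i j : ℂ)) fun F hF h => cplx p hp2 F hF h)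

theorem numF_two (t c m : ℕ) (hct : c + 3 ≤ t) (hm : (c + 3).choose 3 ≤ m) : NumF 2 t c m := by
  have h0 : c / t = 0 := Nat.div_eq_of_lt (by omega)
  refine ⟨1, 1, le_rfl, by omega, ?_, fun i hi => ?_, fun b hb hb2 => ?_⟩
  · calc 2 ≤ t := by omega
      _ ≤ t ^ (2 + 1) := Nat.le_self_pow (by omega) t
  · obtain ⟨i, rfl⟩ : ∃ j, i = j + 1 := ⟨i - 1, by omega⟩
    have h1 := Hc_two_R1 t c hct
    have h2 := Hc_add_mul 2 t (t + c) i
    have h3 : t * (i + 1) + c = t + c + t * i := by ring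
    rw [h3]
    have h4 : t ^ (2 + 1) * (i + 1) = t ^ 3 + t ^ (2 + 1) * i := by ring
    rw [h4]
    omega
  · have h1 : b = m := by
      have h2 : m ≤ b := by omega
      by_contra h3
      have h4 : m + 1 ≤ b := by omega
      have h5 : t * (m + 1) ≤ t * b := Nat.mul_le_mul_left _ h4
      rw [Nat.mul_succ] at h5
      omega
    subst h1
    have h2 : t * b + c - t * b = c := by omega
    rw [h2, Nat.sub_self]
    have h3 := (Hc_two_le t c).trans hm
    have h4 : ((Hc 2 t c : ℕ) : ℤ) ≤ (b : ℤ) := by exact_mod_cast h3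
    push_cast
    linarith

/-- Cubes in space. -/
theorem fat_space (t m d : ℕ) (ht : 2 ≤ t) (hm : 1 ≤ m)
    (h : ∀ c : ℕ, d = t * m + c → c + 3 ≤ t → t ^ 3 < (t + c + 3).choose 3 →
      (c + 3).choose 3 ≤ m) :
    ForGeneral 4 (t ^ 3) (fun p => Module.finrank ℂ (forms 4 d (fun _ => m) p) =
      (d + 3).choose 3 - t ^ 3 * (m + 2).choose 3) := by
  rcases lt_or_ge d (t * m) with h1 | h1
  · exact fat_low 2 t m d (by omega) h1
  obtain ⟨c, hc⟩ : ∃ c, d = t * m + c := ⟨d - t * m, by omega⟩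
  rcases lt_or_ge t (c + 3) with h2 | h2
  · refine fat_indep 2 t m d ht ?_
    rw [hc]
    have : 2 * t * m = 2 * (t * m) := by ring
    omega
  by_cases h3 : (t + c + 3).choose 3 ≤ t ^ 3
  · have h4 := fat_simple 2 t m (t + c) (by omega) hm h3
    have h5 : t + c + t * (m - 1) = d := by
      obtain ⟨m', rfl⟩ : ∃ m', m = m' + 1 := ⟨m - 1, by omega⟩
      rw [hc, Nat.add_sub_cancel]
      ring
    rw [h5] at h4
    exact h4
  · have h4 := fat_window 2 t m c (by omega) hm
      (numF_two t c m h2 (h c hc h2 (lt_of_not_ge h3)))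
    rw [← hc] at h4
    exact h4

end Pool.Agent.TH176.FB
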