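import Pool.Agent.H15.G.R_seed8.TH176.FB.Base
import Pool.Agent.H15.G.R_seed8.H938R2.Elim3

/-!
Fat points on the monomial complete intersection curve: a numerical criterion.
-/

set_option autoImplicit false

namespace Pool.Agent.TH176.FB

namespace J10

open Pool.Agent.H938R2

/-- Lower bound for the number of pairs in the definition of `cap`. -/
theorem cap_ge (M t D : ℕ) :
    ∑ ε : Fin M → Fin t, (D + 1 - ∑ j, (ε j : ℕ)) ≤ Elim.cap (fun _ : Fin M => t) (D : ℤ) := by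
  classical
  unfold Elim.cap
  have hfin : Finite {x : (Fin M → ℕ) × ℕ // (∀ j, x.1 j < t) ∧
      ((∑ j, x.1 j + x.2 : ℕ) : ℤ) ≤ D} := by
    refine Finite.of_injective (β := (Fin M → Fin t) × Fin (D + 1))
      (fun x => (fun j => ⟨x.1.1 j, x.2.1 j⟩, ⟨x.1.2, by
        have h := x.2.2
        have h2 : ∑ j, x.1.1 j + x.1.2 ≤ D := by exact_mod_cast h
        omega⟩)) ?_
    rintro ⟨⟨a, b⟩, hx⟩ ⟨⟨a', b'⟩, hx'⟩ h
    simp only [Prod.mk.injEq, Fin.mk.injEq] at h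
    obtain ⟨h1, h2⟩ := h
    have h3 : a = a' := by
      funext j
      have := congrFun h1 j
      simpa using this
    subst h3
    subst h2
    rfl
  have e : ∑ ε : Fin M → Fin t, (D + 1 - ∑ j, (ε j : ℕ)) =
      Nat.card (Σ ε : Fin M → Fin t, Fin (D + 1 - ∑ j, (ε j : ℕ))) := by
    rw [Nat.card_eq_fintype_card, Fintype.card_sigma]
    simp
  rw [e]
  refine Nat.card_le_card_of_injective
    (fun x => ⟨(fun j => (x.1 j : ℕ), (x.2 : ℕ)), fun j => (x.1 j).2, ?_⟩) ?_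
  · have h := x.2.2
    have h2 : ∑ j, (x.1 j : ℕ) + (x.2 : ℕ) ≤ D := by omega
    exact_mod_cast h2
  · rintro ⟨a, b⟩ ⟨a', b'⟩ h
    simp only [Subtype.mk.injEq, Prod.mk.injEq] at h
    obtain ⟨h1, h2⟩ := h
    have h3 : a = a' := by
      funext j
      exact Fin.ext (congrFun h1 j)
    subst h3
    have h4 : b = b' := Fin.ext h2
    subst h4
    rfl

/-- The sum of all the entries of all the families. -/
theorem sum_eps (M t : ℕ) :
    2 * ∑ ε : Fin M → Fin t, ∑ j, (ε j : ℕ) = t ^ M * (M * (t - 1)) := by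
  classical
  have h1 : ∑ ε : Fin M → Fin t, ∑ j, (ε j : ℕ) =
      ∑ ε : Fin M → Fin t, ∑ j, ((Fin.rev (ε j) : Fin t) : ℕ) := by
    refine Fintype.sum_equiv (Equiv.piCongrRight fun _ : Fin M => Fin.revPerm) _ _ fun ε => ?_
    refine Finset.sum_congr rfl fun j _ => ?_
    simp
  have h2 : ∀ ε : Fin M → Fin t, ∑ j, (ε j : ℕ) + ∑ j, ((Fin.rev (ε j) : Fin t) : ℕ) =
      M * (t - 1) := by
    intro ε
    rw [← Finset.sum_add_distrib]
    have h3 : ∀ j ∈ (Finset.univ : Finset (Fin M)),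
        (ε j : ℕ) + ((Fin.rev (ε j) : Fin t) : ℕ) = t - 1 := by
      intro j _
      rw [Fin.val_rev]
      have := (ε j).2
      omega
    rw [Finset.sum_congr rfl h3]
    simp
  rw [two_mul]
  nth_rewrite 2 [h1]
  rw [← Finset.sum_add_distrib, Finset.sum_congr rfl fun ε _ => h2 ε]
  simp

/-- The numerical condition. -/
theorem num (M r δ k t : ℕ) (d : Fin r → ℕ) (ht : 2 ≤ t)
    (hd : ∀ i, δ ≤ d i) (hr : r ≤ t ^ (M + 1)) (hk : (t - 1) * (2 * k + M + 2) ≤ 2 * t * δ)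
    (l : Fin M → ℕ) :
    ∑ i, (k + 1 - d i - ∑ j, l j) ≤
      Elim.cap (fun _ : Fin M => t) ((k : ℤ) - ∑ j, (t : ℤ) * l j) := by
  classical
  obtain ⟨L, hL⟩ : ∃ L, L = ∑ j, l j := ⟨_, rfl⟩
  rw [← hL]
  have hLz : ((k : ℤ) - ∑ j, (t : ℤ) * l j) = (k : ℤ) - t * L := by
    rw [← Finset.mul_sum, hL]
    push_cast
    rfl
  rw [hLz]
  obtain ⟨s, rfl⟩ : ∃ s, t = s + 1 := ⟨t - 1, by omega⟩
  have hs : s + 1 - 1 = s := rfl
  rw [hs] at hk
  rcases Nat.lt_or_ge L (k + 1 - δ) with hlt | hge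
  · -- the main case
    have hδk : δ + L ≤ k := by omega
    have h1 : (s + 1) * L ≤ k := by
      have h2 : (s + 1) * (δ + L) ≤ (s + 1) * k := Nat.mul_le_mul_left _ hδk
      nlinarith
    obtain ⟨D, hD⟩ : ∃ D, k = (s + 1) * L + D := Nat.exists_eq_add_of_le h1
    have hDz : (k : ℤ) - ((s + 1 : ℕ) : ℤ) * L = (D : ℤ) := by
      rw [hD]
      push_cast
      ring
    rw [hDz]
    have h3 := cap_ge M (s + 1) D
    have h4 := sum_eps M (s + 1)
    rw [hs] at h4
    have h5 : ∑ i, (k + 1 - d i - L) ≤ (s + 1) ^ (M + 1) * (k + 1 - δ - L) := by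
      calc ∑ i, (k + 1 - d i - L) ≤ ∑ _i : Fin r, (k + 1 - δ - L) :=
            Finset.sum_le_sum fun i _ => by
              have := hd i
              omega
        _ = r * (k + 1 - δ - L) := by simp
        _ ≤ _ := Nat.mul_le_mul_right _ hr
    have h6 : (s + 1) ^ M * (D + 1) ≤
        ∑ ε : Fin M → Fin (s + 1), (D + 1 - ∑ j, (ε j : ℕ)) +
          ∑ ε : Fin M → Fin (s + 1), ∑ j, (ε j : ℕ) := by
      rw [← Finset.sum_add_distrib]
      calc (s + 1) ^ M * (D + 1) = ∑ _ε : Fin M → Fin (s + 1), (D + 1) := by simp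
        _ ≤ _ := Finset.sum_le_sum fun ε _ => by omega
    obtain ⟨w, hw⟩ : ∃ w, k + 1 - δ - L = w := ⟨_, rfl⟩
    rw [hw] at h5
    have hw' : k + 1 = δ + L + w := by omega
    generalize hP : (s + 1) ^ M = P at *
    have hP2 : (s + 1) ^ (M + 1) = P * (s + 1) := by rw [pow_succ, hP]
    rw [hP2] at h5
    have h7 : 2 * ((s + 1) * w) + M * s ≤ 2 * (D + 1) := by
      zify at hk hw' hD ⊢
      have e1 : (δ : ℤ) = k + 1 - L - w := by linarith
      rw [e1] at hk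
      have e2 : (D : ℤ) = k - (s + 1) * L := by linarith
      rw [e2]
      nlinarith
    have h8 : P * (2 * ((s + 1) * w) + M * s) ≤ P * (2 * (D + 1)) := Nat.mul_le_mul_left _ h7
    have h9 : P * (s + 1) * w ≤ ∑ ε : Fin M → Fin (s + 1), (D + 1 - ∑ j, (ε j : ℕ)) := by
      nlinarith
    omega
  · have h0 : ∑ i, (k + 1 - d i - L) = 0 := by
      apply Finset.sum_eq_zero
      intro i _
      have := hd i
      omega
    rw [h0]
    exact Nat.zero_le _

theorem fat_eq {r n D : ℕ} (w : Fin r → ℕ) (p : Fin r → Fin n → ℂ) :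
    fat D w p = forms n D w p := rfl

end J10

open Pool.Agent.H938R2 in
theorem fatA (N r δ k t : ℕ) (d : Fin r → ℕ) (hN : 1 ≤ N) (ht : 2 ≤ t) (hδ : 1 ≤ δ)
    (hd : ∀ i, δ ≤ d i) (hr : r ≤ t ^ N) (hk : (t - 1) * (2 * k + N + 1) ≤ 2 * t * δ) :
    ∃ p : Fin r → Fin (N + 1) → ℂ,
      Module.finrank ℂ (fat k (fun i => k + 1 - d i) p) +
        ∑ i, (k + 1 - d i + (N - 1)).choose N = (k + N).choose N := by
  obtain ⟨M, rfl⟩ : ∃ M, N = M + 1 := ⟨N - 1, by omega⟩
  have h1 := (Elim.main M r k (fun _ : Fin M => t) (fun _ => by omega)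
    (fun i => k + 1 - d i)).2.2 (fun l => J10.num M r δ k t d ht hd hr
      (by
        have e : 2 * k + (M + 1) + 1 = 2 * k + M + 2 := by ring
        rw [e] at hk
        exact hk) l)
  obtain ⟨p, hp⟩ := ForGeneral.exists h1
  exact ⟨p, hp⟩

end Pool.Agent.TH176.FB
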