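import Pool.Agent.H15.G.R_seed8.TH176.FB.J6
import Pool.Agent.H15.G.R_seed8.TH176.FB.J7
import Pool.Agent.H15.G.R_seed8.TH176.FB.J9
import Pool.Agent.H15.G.R_seed8.TH176.FB.J10

/-!
The formula of Froeberg for a fixed number of variables: perfect powers.
-/

set_option autoImplicit false

namespace Pool.Agent.TH176.FB

open MvPolynomial Finset Pool.Agent.TH206.Fro

lemma lin_hom {K : Type} [Field K] {N : ℕ} (p : Fin N → K) : (lin p).IsHomogeneous 1 := by
  unfold lin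
  refine (isHomogeneous_X K 0).add (IsHomogeneous.sum _ _ _ fun i _ => ?_)
  have h := (isHomogeneous_C (Fin (N + 1)) (p i)).mul (isHomogeneous_X K i.succ)
  rwa [zero_add] at h

lemma degree_cons {N : ℕ} (a : ℕ) (α : Fin N →₀ ℕ) :
    (Finsupp.cons a α).degree = a + α.degree := by
  rw [Finsupp.degree_eq_sum, Finsupp.degree_eq_sum, Fin.sum_univ_succ]
  simp

lemma degree_tail {N : ℕ} (a : Fin (N + 1) →₀ ℕ) :
    a.degree = a 0 + (Finsupp.tail a).degree := by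
  conv_lhs => rw [← Finsupp.cons_tail a]
  exact degree_cons _ _

lemma T_hom {K : Type} [Field K] {N : ℕ} (D : ℕ) (p : Fin N → K) (α : Fin N →₀ ℕ)
    (h : α.degree ≤ D) : (T D p α).IsHomogeneous D := by
  unfold T
  have h1 := (lin_hom p).pow (D - α.degree)
  have h2 : (monomial (Finsupp.cons 0 α) (1 : K)).IsHomogeneous α.degree :=
    isHomogeneous_monomial _ (by rw [degree_cons, zero_add])
  have h3 := h1.mul h2
  rwa [one_mul, Nat.sub_add_cancel h] at h3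

lemma T_mem {K : Type} [Field K] {N r : ℕ} (k : ℕ) (d : Fin r → ℕ) (p : Fin r → (Fin N → K))
    (i : Fin r) (α : Fin N →₀ ℕ) (h : α.degree + d i ≤ k) :
    T k (p i) α ∈ ik (fun i => lin (p i) ^ d i) k := by
  refine ⟨?_, T_hom k _ α (by omega)⟩
  show T k (p i) α ∈ Ideal.span _
  unfold T
  have h1 : k - α.degree = d i + (k - α.degree - d i) := by omega
  rw [h1, pow_add, mul_assoc]
  exact Ideal.mul_mem_right _ _ (Ideal.subset_span ⟨i, rfl⟩)

/-- The number of the multiples. -/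
lemma card_Ro_choose (N r k : ℕ) (d : Fin r → ℕ) (hN : 1 ≤ N) :
    Fintype.card (Ro (N + 1) k d) = ∑ i, (k + 1 - d i + (N - 1)).choose N := by
  rw [card_Ro]
  refine Finset.sum_congr rfl fun i _ => ?_
  split_ifs with h
  · rw [card_Mon]
    have h1 : N + 1 + (k - d i) - 1 = k + 1 - d i + (N - 1) := by omega
    rw [h1, ← Nat.choose_symm_of_eq_add]
    omega
  · rw [Nat.choose_eq_zero_of_lt]
    omega

lemma card_Mon_choose (N k : ℕ) : (Mon (N + 1) k).card = (k + N).choose N := by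
  rw [card_Mon]
  have h1 : N + 1 + k - 1 = k + N := by omega
  rw [h1, ← Nat.choose_symm_of_eq_add]
  omega

/-- Independence for at most `t ^ N` forms. -/
theorem lemA (N r δ k t : ℕ) (d : Fin r → ℕ) (hN : 1 ≤ N) (ht : 2 ≤ t) (hδ : 1 ≤ δ)
    (hd : ∀ i, δ ≤ d i) (hr : r ≤ t ^ N) (hk : (t - 1) * (2 * k + N + 1) ≤ 2 * t * δ) :
    ∃ f0 : Fin r → MvPolynomial (Fin (N + 1)) ℂ, (∀ i, (f0 i).IsHomogeneous (d i)) ∧
      Fintype.card (Ro (N + 1) k d) ≤ Module.finrank ℂ (ik f0 k) := by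
  obtain ⟨p, hp⟩ := fatA N r δ k t d hN ht hδ hd hr hk
  refine ⟨fun i => lf (p i) ^ d i, fun i => ?_, ?_⟩
  · have h := (lf_hom (p i)).pow (d i)
    rwa [one_mul] at h
  · have h1 := emsalem_iarrobino k d p
    rw [dim_thm (N + 1) k ℂ, card_Mon_choose] at h1
    rw [card_Ro_choose N r k d hN]
    omega

/-- Surjectivity for at least `s ^ N` forms. -/
theorem lemB (K : Type) [Field K] [CharZero K] (N r k s Δ : ℕ) (d : Fin r → ℕ) (hs : 2 ≤ s)
    (hc : s ^ N ≤ (Finset.univ.filter fun i => d i ≤ Δ).card) (hk : s * (Δ - 1) < (s - 1) * k) :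
    ∃ f0 : Fin r → MvPolynomial (Fin (N + 1)) K, (∀ i, (f0 i).IsHomogeneous (d i)) ∧
      (Mon (N + 1) k).card ≤ Module.finrank K (ik f0 k) := by
  classical
  obtain ⟨Z, hZ, hV⟩ := exists_vanish (K := K) N s (by omega)
  obtain ⟨u, rfl⟩ : ∃ u, s = u + 1 := ⟨s - 1, by omega⟩
  simp only [Nat.add_sub_cancel] at hk
  have hΔk : Δ ≤ k := by
    by_contra h
    push Not at h
    have h1 : k ≤ Δ - 1 := by omega
    have h2 : u * k ≤ (u + 1) * (Δ - 1) := Nat.mul_le_mul (by omega) h1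
    omega
  obtain ⟨e, rfl⟩ : ∃ e, k = Δ + e := ⟨k - Δ, by omega⟩
  have hlt : Δ + e < (u + 1) * (e + 1) := by
    rcases Nat.eq_zero_or_pos Δ with h0 | h0
    · subst h0
      nlinarith
    · obtain ⟨v, rfl⟩ : ∃ v, Δ = v + 1 := ⟨Δ - 1, by omega⟩
      simp only [Nat.add_sub_cancel] at hk
      nlinarith
  have hspan := span_of_vanish Z e (Δ + e) (by omega) (hV e (Δ + e) hlt)
  obtain ⟨j⟩ : Nonempty (Z ↪ {i // i ∈ Finset.univ.filter fun i => d i ≤ Δ}) :=
    Function.Embedding.nonempty_of_card_le (by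
      rw [Fintype.card_coe, Fintype.card_coe, hZ]; exact hc)
  let p : Fin r → (Fin N → K) := fun i => if h : ∃ q : Z, (j q).1 = i then (h.choose : Z) else 0
  have hp : ∀ q : Z, p (j q).1 = q := by
    intro q
    have h : ∃ q' : Z, (j q').1 = (j q).1 := ⟨q, rfl⟩
    have h1 : p (j q).1 = (h.choose : Z) := dif_pos h
    rw [h1]
    have h2 := h.choose_spec
    have h3 := j.injective (Subtype.ext h2)
    rw [h3]
  refine ⟨fun i => lin (p i) ^ d i, fun i => ?_, ?_⟩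
  · have h := (lin_hom (p i)).pow (d i)
    rwa [one_mul] at h
  have hle : homogeneousSubmodule (Fin (N + 1)) K (Δ + e) ≤
      ik (fun i => lin (p i) ^ d i) (Δ + e) := by
    rw [← hspan, Submodule.span_le]
    rintro _ ⟨⟨q, α⟩, rfl⟩
    have h1 := T_mem (Δ + e) d p (j q).1 α.1 (by
      have h2 := α.2
      have h3 : d (j q).1 ≤ Δ := (Finset.mem_filter.1 (j q).2).2
      omega)
    rw [hp q] at h1
    exact h1
  have : FiniteDimensional K (ik (fun i => lin (p i) ^ d i) (Δ + e)) :=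
    Submodule.finiteDimensional_of_le (inf_le_right : _ ≤ homogeneousSubmodule _ K (Δ + e))
  rw [← dim_thm (N + 1) (Δ + e) K]
  exact Submodule.finrank_mono hle

theorem main (K : Type) [Field K] [CharZero K] (N r δ : ℕ) (d : Fin r → ℕ) (hN : 1 ≤ N)
    (hδ : 1 ≤ δ) (hd : ∀ i, δ ≤ d i) :
    ∃ P : MvPolynomial (Io (N + 1) d) K, P ≠ 0 ∧
      ∀ f : Fin r → MvPolynomial (Fin (N + 1)) K, (∀ i, (f i).IsHomogeneous (d i)) →
        MvPolynomial.eval (fun s : Io (N + 1) d => (f s.1).coeff s.2.1) P ≠ 0 →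
        (∀ t k : ℕ, 2 ≤ t → r ≤ t ^ N → (t - 1) * (2 * k + N + 1) ≤ 2 * t * δ →
          hilb f k = fro (N + 1) d k) ∧
        (∀ s Δ k : ℕ, 2 ≤ s → s ^ N ≤ (Finset.univ.filter fun i => d i ≤ Δ).card →
          s * (Δ - 1) < (s - 1) * k → hilb f k = 0 ∧
            (s * (Δ - 1) < (s - 1) * (2 * δ - 1) → fro (N + 1) d k = 0)) := by
  classical
  -- the bound for the degrees
  obtain ⟨B, hB⟩ : ∃ B : ℕ, 2 * δ ≤ B ∧ ∀ i, 2 * d i ≤ B :=
    ⟨2 * δ + ∑ i, 2 * d i, by omega, fun i => by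
      have := Finset.single_le_sum (f := fun i => 2 * d i) (fun _ _ => Nat.zero_le _)
        (Finset.mem_univ i)
      omega⟩
  -- for each degree the two polynomials
  have hA : ∀ k : ℕ, ∃ P : MvPolynomial (Io (N + 1) d) K, P ≠ 0 ∧
      ∀ f : Fin r → MvPolynomial (Fin (N + 1)) K, (∀ i, (f i).IsHomogeneous (d i)) →
        MvPolynomial.eval (fun s : Io (N + 1) d => (f s.1).coeff s.2.1) P ≠ 0 →
        ∀ t : ℕ, 2 ≤ t → r ≤ t ^ N → (t - 1) * (2 * k + N + 1) ≤ 2 * t * δ →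
          Fintype.card (Ro (N + 1) k d) ≤ Module.finrank K (ik f k) := by
    intro k
    by_cases h : ∃ t : ℕ, 2 ≤ t ∧ r ≤ t ^ N ∧ (t - 1) * (2 * k + N + 1) ≤ 2 * t * δ
    · obtain ⟨t, ht, hr, hk⟩ := h
      obtain ⟨f0, hf0, hc⟩ := lemA N r δ k t d hN ht hδ hd hr hk
      obtain ⟨P, hP, hP2⟩ := spec' K ℂ (N + 1) r k d f0 hf0
      exact ⟨P, hP, fun f hf hfP _ _ _ _ => hc.trans (hP2 f hf hfP)⟩
    · refine ⟨1, one_ne_zero, fun f _ _ t ht hr hk => absurd ⟨t, ht, hr, hk⟩ h⟩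
  have hB' : ∀ k : ℕ, ∃ P : MvPolynomial (Io (N + 1) d) K, P ≠ 0 ∧
      ∀ f : Fin r → MvPolynomial (Fin (N + 1)) K, (∀ i, (f i).IsHomogeneous (d i)) →
        MvPolynomial.eval (fun s : Io (N + 1) d => (f s.1).coeff s.2.1) P ≠ 0 →
        ∀ s Δ : ℕ, 2 ≤ s → s ^ N ≤ (Finset.univ.filter fun i => d i ≤ Δ).card →
          s * (Δ - 1) < (s - 1) * k → (Mon (N + 1) k).card ≤ Module.finrank K (ik f k) := by
    intro k
    by_cases h : ∃ s Δ : ℕ, 2 ≤ s ∧ s ^ N ≤ (Finset.univ.filter fun i => d i ≤ Δ).card ∧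
        s * (Δ - 1) < (s - 1) * k
    · obtain ⟨s, Δ, hs, hc, hk⟩ := h
      obtain ⟨f0, hf0, hc⟩ := lemB K N r k s Δ d hs hc hk
      obtain ⟨P, hP, hP2⟩ := spec K (N + 1) r k d f0 hf0
      exact ⟨P, hP, fun f hf hfP _ _ _ _ _ => hc.trans (hP2 f hf hfP)⟩
    · exact ⟨1, one_ne_zero, fun f _ _ s Δ hs hc hk => absurd ⟨s, Δ, hs, hc, hk⟩ h⟩
  choose PA hPA0 hPA using hA
  choose PB hPB0 hPB using hB'
  refine ⟨∏ k ∈ Finset.range (B + 1), (PA k * PB k), Finset.prod_ne_zero_iff.2 fun k _ =>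
    mul_ne_zero (hPA0 k) (hPB0 k), fun f hf hfP => ?_⟩
  rw [map_prod, Finset.prod_ne_zero_iff] at hfP
  have hfA : ∀ k ≤ B, MvPolynomial.eval (fun s : Io (N + 1) d => (f s.1).coeff s.2.1) (PA k) ≠ 0 :=
    fun k hk h0 => hfP k (Finset.mem_range.2 (by omega)) (by rw [map_mul, h0, zero_mul])
  have hfB : ∀ k ≤ B, MvPolynomial.eval (fun s : Io (N + 1) d => (f s.1).coeff s.2.1) (PB k) ≠ 0 :=
    fun k hk h0 => hfP k (Finset.mem_range.2 (by omega)) (by rw [map_mul, h0, mul_zero])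
  refine ⟨fun t k ht hr hk => ?_, fun s Δ k hs hc hk => ?_⟩
  · have hk2 : k < 2 * δ := by
      obtain ⟨u, rfl⟩ : ∃ u, t = u + 1 := ⟨t - 1, by omega⟩
      simp only [Nat.add_sub_cancel] at hk
      by_contra hne
      push Not at hne
      have h1 : u * (4 * δ + 1) ≤ u * (2 * k + N + 1) := Nat.mul_le_mul_left _ (by omega)
      have h2 : δ ≤ u * δ := Nat.le_mul_of_pos_left _ (by omega)
      nlinarith
    refine hilb_eq K (N + 1) r k d (by omega) (fun i => by have := hd i; omega) f hf ?_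
    exact (min_le_left _ _).trans (hPA k f hf (hfA k (by omega)) t ht hr hk)
  · -- a degree at most `B` in which the quotient is zero
    have hkey : ∀ k' ≤ B, s * (Δ - 1) < (s - 1) * k' →
        homogeneousSubmodule (Fin (N + 1)) K k' ≤ ik f k' := fun k' hk' h =>
      ik_top_of_card f k' (hPB k' f hf (hfB k' hk') s Δ hs hc h)
    obtain ⟨u, rfl⟩ : ∃ u, s = u + 1 := ⟨s - 1, by omega⟩
    simp only [Nat.add_sub_cancel] at hk hkey ⊢
    -- reduce to the largest relevant degree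
    have hΔ : ∃ i, Δ ≤ d i ∨ d i ≤ Δ := by
      have h1 : 0 < (Finset.univ.filter fun i => d i ≤ Δ).card :=
        lt_of_lt_of_le (pow_pos (by omega) _) hc
      obtain ⟨i, hi⟩ := Finset.card_pos.1 h1
      exact ⟨i, Or.inr (Finset.mem_filter.1 hi).2⟩
    -- replace `Δ` by the largest degree at most `Δ`
    have h1 : (Finset.univ.filter fun i => d i ≤ Δ).Nonempty :=
      Finset.card_pos.1 (lt_of_lt_of_le (pow_pos (by omega) _) hc)
    obtain ⟨i0, hi0, hmax⟩ := Finset.exists_max_image _ d h1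
    have hi0' : d i0 ≤ Δ := (Finset.mem_filter.1 hi0).2
    have hc' : (u + 1) ^ N ≤ (Finset.univ.filter fun i => d i ≤ d i0).card := by
      refine hc.trans (Finset.card_le_card fun i hi => ?_)
      exact Finset.mem_filter.2 ⟨Finset.mem_univ _, hmax i hi⟩
    have hk1 : (u + 1) * (d i0 - 1) < u * (2 * d i0 - 1) := by
      have h2 := hd i0
      obtain ⟨v, hv⟩ : ∃ v, d i0 = v + 1 := ⟨d i0 - 1, by omega⟩
      rw [hv]
      have h3 : v + 1 - 1 = v := rfl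
      have h4 : 2 * (v + 1) - 1 = 2 * v + 1 := by omega
      rw [h3, h4]
      have h5 : v ≤ u * v := Nat.le_mul_of_pos_left _ (by omega)
      nlinarith
    have hk2 : (u + 1) * (d i0 - 1) < u * k := lt_of_le_of_lt
      (Nat.mul_le_mul_left _ (by omega)) hk
    have htop : homogeneousSubmodule (Fin (N + 1)) K k ≤ ik f k := by
      have hB2 := hB.2 i0
      rcases le_or_gt k B with hkB | hkB
      · exact hkey k hkB hk
      · have h3 := ik_top_of_card f (2 * d i0 - 1) (hPB (2 * d i0 - 1) f hf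
          (hfB _ (by omega)) (u + 1) (d i0) (by omega) hc' (by simpa using hk1))
        exact ik_top_mono f _ k (by omega) h3
    refine ⟨hilb_zero_of_top f k htop, fun hfro => ?_⟩
    -- the predicted value
    have h5 : ∀ k' < 2 * δ, homogeneousSubmodule (Fin (N + 1)) K k' ≤ ik f k' →
        co (N + 1) d k' ≤ 0 := by
      intro k' hk' h6
      rw [co_thm (N + 1) r k' d (by omega) (fun i => by have := hd i; omega) k' le_rfl]
      have h7 := finrank_ik_le K (N + 1) r k' d f hf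
      have h8 : ik f k' = homogeneousSubmodule (Fin (N + 1)) K k' := le_antisymm inf_le_right h6
      rw [h8, dim_thm (N + 1) k' K, le_min_iff] at h7
      have h9 := h7.1
      rw [card_Ro] at h9
      have h10 : (((Mon (N + 1) k').card : ℕ) : ℤ) ≤
          ((∑ i, (if d i ≤ k' then (Mon (N + 1) (k' - d i)).card else 0) : ℕ) : ℤ) := by
        exact_mod_cast h9
      push_cast at h10
      linarith
    have h6 : ∃ k' ≤ k, co (N + 1) d k' ≤ 0 := by
      rcases lt_or_ge k (2 * δ) with h7 | h7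
      · exact ⟨k, le_rfl, h5 k h7 htop⟩
      · exact ⟨2 * δ - 1, by omega, h5 _ (by omega) (hkey _ (by omega) hfro)⟩
    unfold fro
    rw [if_neg]
    push Not
    exact h6

/-- The two numerical facts on perfect powers. -/
lemma window (N s δ : ℕ) (hs : 2 ≤ s) :
    ∃ a : ℕ, ∀ k : ℕ, ¬ ((s - 1) * (2 * k + N + 1) ≤ 2 * s * δ) → ¬ (s * (δ - 1) < (s - 1) * k) →
      1 ≤ δ → a ≤ k ∧ k < a + N / 2 := by
  classical
  obtain ⟨u, rfl⟩ : ∃ u, s = u + 1 := ⟨s - 1, by omega⟩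
  simp only [Nat.add_sub_cancel]
  have hex : ∃ k : ℕ, 2 * (u + 1) * δ < u * (2 * k + N + 1) := by
    refine ⟨2 * (u + 1) * δ, ?_⟩
    have h1 : 1 ≤ u := by omega
    nlinarith [Nat.mul_le_mul_right (2 * (2 * (u + 1) * δ) + N + 1) h1]
  obtain ⟨a, h2, hmin⟩ : ∃ a, 2 * (u + 1) * δ < u * (2 * a + N + 1) ∧
      ∀ k, 2 * (u + 1) * δ < u * (2 * k + N + 1) → a ≤ k :=
    ⟨Nat.find hex, Nat.find_spec hex, fun k hk => Nat.find_min' hex hk⟩
  refine ⟨a, fun k hk1 hk2 hδ => ?_⟩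
  push Not at hk1 hk2
  have h1 : a ≤ k := hmin k hk1
  refine ⟨h1, ?_⟩
  obtain ⟨v, rfl⟩ : ∃ v, δ = v + 1 := ⟨δ - 1, by omega⟩
  simp only [Nat.add_sub_cancel] at hk2
  have h3 : 2 * k + 1 < 2 * a + N := by
    by_contra h
    push Not at h
    have h4 : u * (2 * a + N + 1) ≤ u * (2 * k + 2) := Nat.mul_le_mul_left _ (by omega)
    nlinarith
  omega

lemma window' (N s δ : ℕ) (hs : 2 ≤ s) (hdvd : (s - 1) ∣ δ) :
    ∃ a : ℕ, ∀ k : ℕ, ¬ ((s - 1) * (2 * k + N + 1) ≤ 2 * s * δ) → ¬ (s * (δ - 1) < (s - 1) * k) →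
      1 ≤ δ → a ≤ k ∧ k + 1 < a + N / 2 := by
  obtain ⟨u, rfl⟩ : ∃ u, s = u + 1 := ⟨s - 1, by omega⟩
  simp only [Nat.add_sub_cancel] at hdvd ⊢
  obtain ⟨q, rfl⟩ := hdvd
  refine ⟨(u + 1) * q - N / 2, fun k hk1 hk2 hδ => ?_⟩
  push Not at hk1 hk2
  have hu : 0 < u := by omega
  have h1 : 2 * ((u + 1) * q) < 2 * k + N + 1 := by
    have h2 : u * (2 * ((u + 1) * q)) < u * (2 * k + N + 1) := by
      calc u * (2 * ((u + 1) * q)) = 2 * (u + 1) * (u * q) := by ring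
        _ < _ := hk1
    exact lt_of_mul_lt_mul_left h2 (Nat.zero_le _)
  have h3 : k + 1 < (u + 1) * q := by
    have h4 : u * (k + 1) < u * ((u + 1) * q) := by
      obtain ⟨v, hv⟩ : ∃ v, u * q = v + 1 := ⟨u * q - 1, by omega⟩
      rw [hv] at hk2
      simp only [Nat.add_sub_cancel] at hk2
      calc u * (k + 1) = u * k + u := by ring
        _ ≤ (u + 1) * v + u := by omega
        _ < (u + 1) * (v + 1) := by nlinarith
        _ = u * ((u + 1) * q) := by rw [← hv]; ring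
    exact lt_of_mul_lt_mul_left h4 (Nat.zero_le _)
  omega

/-- The complete statement. -/
theorem main2 (K : Type) [Field K] [CharZero K] (N r δ : ℕ) (d : Fin r → ℕ) (hN : 1 ≤ N)
    (hδ : 1 ≤ δ) (hd : ∀ i, δ ≤ d i) :
    ∃ P : MvPolynomial (Io (N + 1) d) K, P ≠ 0 ∧
      ∀ f : Fin r → MvPolynomial (Fin (N + 1)) K, (∀ i, (f i).IsHomogeneous (d i)) →
        MvPolynomial.eval (fun s : Io (N + 1) d => (f s.1).coeff s.2.1) P ≠ 0 →
        (∀ t k : ℕ, 2 ≤ t → r ≤ t ^ N → (t - 1) * (2 * k + N + 1) ≤ 2 * t * δ →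
          hilb f k = fro (N + 1) d k) ∧
        (∀ s Δ k : ℕ, 2 ≤ s → s ^ N ≤ (Finset.univ.filter fun i => d i ≤ Δ).card →
          s * (Δ - 1) < (s - 1) * k → hilb f k = 0 ∧
            (s * (Δ - 1) < (s - 1) * (2 * δ - 1) → fro (N + 1) d k = 0)) ∧
        (∀ s : ℕ, 2 ≤ s → r = s ^ N → (∀ i, d i = δ) →
          (∃ a : ℕ, ∀ k : ℕ, hilb f k ≠ fro (N + 1) d k → a ≤ k ∧ k < a + N / 2) ∧
          ((s - 1) ∣ δ → ∃ a : ℕ, ∀ k : ℕ, hilb f k ≠ fro (N + 1) d k →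
            a ≤ k ∧ k + 1 < a + N / 2)) := by
  obtain ⟨P, hP, h⟩ := main K N r δ d hN hδ hd
  refine ⟨P, hP, fun f hf hfP => ?_⟩
  obtain ⟨hA, hB⟩ := h f hf hfP
  refine ⟨hA, hB, fun s hs hr hdd => ?_⟩
  have key : ∀ k, hilb f k ≠ fro (N + 1) d k → ¬ ((s - 1) * (2 * k + N + 1) ≤ 2 * s * δ) ∧
      ¬ (s * (δ - 1) < (s - 1) * k) := by
    intro k hk
    refine ⟨fun h1 => hk (hA s k hs hr.le h1), fun h1 => hk ?_⟩
    have h2 : s ^ N ≤ (Finset.univ.filter fun i => d i ≤ δ).card := by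
      rw [Finset.filter_true_of_mem fun i _ => (hdd i).le, Finset.card_univ, Fintype.card_fin, hr]
    have h3 : s * (δ - 1) < (s - 1) * (2 * δ - 1) := by
      obtain ⟨u, rfl⟩ : ∃ u, s = u + 1 := ⟨s - 1, by omega⟩
      obtain ⟨v, rfl⟩ : ∃ v, δ = v + 1 := ⟨δ - 1, by omega⟩
      have h4 : 2 * (v + 1) - 1 = 2 * v + 1 := by omega
      rw [h4]
      simp only [Nat.add_sub_cancel]
      have h5 : v ≤ u * v := Nat.le_mul_of_pos_left _ (by omega)
      nlinarith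
    obtain ⟨h5, h6⟩ := hB s δ k hs h2 h1
    rw [h5, h6 h3]
  refine ⟨?_, fun hdvd => ?_⟩
  · obtain ⟨a, ha⟩ := window N s δ hs
    exact ⟨a, fun k hk => ha k (key k hk).1 (key k hk).2 hδ⟩
  · obtain ⟨a, ha⟩ := window' N s δ hs hdvd
    exact ⟨a, fun k hk => ha k (key k hk).1 (key k hk).2 hδ⟩

end Pool.Agent.TH176.FB
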