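import Mathlib

namespace Pool.Agent.TH176.FB

theorem inj_near {ι κ : Type} [Fintype ι] [Fintype κ] [DecidableEq ι] (M : Matrix κ ι (Polynomial ℝ))
    (h : ∀ c : ι → ℝ, (M.map (Polynomial.eval 0)).mulVec c = 0 → c = 0) :
    ∃ ε : ℝ, ε ≠ 0 ∧ ∀ c : ι → ℝ, (M.map (Polynomial.eval ε)).mulVec c = 0 → c = 0 := by
  classical
  set f : Polynomial ℝ := (M.transpose * M).det with hf
  have key : ∀ ε : ℝ, f.eval ε =
      ((M.map (Polynomial.eval ε)).transpose * (M.map (Polynomial.eval ε))).det := by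
    intro ε
    have h1 : f.eval ε = (Polynomial.evalRingHom ε) f := rfl
    rw [h1, hf, RingHom.map_det]
    congr 1
    ext i j
    simp [Matrix.mul_apply, Polynomial.eval_finsetSum]
  have h0 : f.eval 0 ≠ 0 := by
    rw [key 0]
    intro hdet
    obtain ⟨v, hv, hv0⟩ := Matrix.exists_mulVec_eq_zero_iff.mpr hdet
    apply hv
    apply h v
    rw [← Matrix.mulVec_mulVec] at hv0
    have h2 : v ⬝ᵥ ((M.map (Polynomial.eval 0)).transpose.mulVec
        ((M.map (Polynomial.eval 0)).mulVec v)) = 0 := by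
      rw [hv0]; simp
    rw [Matrix.dotProduct_mulVec, Matrix.vecMul_transpose] at h2
    exact dotProduct_self_eq_zero.mp h2
  have hfne : f ≠ 0 := by
    intro h
    rw [h] at h0
    simp at h0
  have hfin : ({0} ∪ (f.roots.toFinset : Set ℝ)).Finite :=
    (Set.finite_singleton 0).union (Finset.finite_toSet _)
  obtain ⟨ε, hε⟩ := hfin.exists_notMem
  simp only [Set.mem_union, Set.mem_singleton_iff, Finset.mem_coe, Multiset.mem_toFinset,
    Polynomial.mem_roots hfne, Polynomial.IsRoot.def, not_or] at hε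
  refine ⟨ε, hε.1, ?_⟩
  intro c hc
  by_contra hne
  apply hε.2
  rw [key ε]
  apply Matrix.exists_mulVec_eq_zero_iff.mp
  refine ⟨c, hne, ?_⟩
  rw [← Matrix.mulVec_mulVec, hc]
  simp

end Pool.Agent.TH176.FB
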