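import Pool.Agent.H15.G.R_seed8.TH176.FB.Defs

/-!
The monomials of the degeneration of the affine space to the normal cones of a flag of complete
intersections containing the monomial curve `u ↦ (u, u ^ t, u ^ (t ^ 2), …)`.
-/

set_option autoImplicit false

namespace Pool.Agent.TH176.FB

open MvPolynomial

/-- The exponent of the monomial of the model with index `α`: the exponent of `u` is
`∑ (α i mod t) * t ^ i + α n * t ^ n` and the exponent of `s i` is `α i / t`. -/
noncomputable def ex {n : ℕ} (t : ℕ) (α : Fin (n + 1) →₀ ℕ) : Fin (n + 1) →₀ ℕ :=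
  Finsupp.cons (∑ i : Fin n, (α i.castSucc % t) * t ^ (i : ℕ) + α (Fin.last n) * t ^ n)
    (Finsupp.equivFunOnFinite.symm fun i : Fin n => α i.castSucc / t)

/-- The linear map with `x ^ α ↦ x ^ (ex t α)`. -/
noncomputable def Th {n : ℕ} (t : ℕ) :
    MvPolynomial (Fin (n + 1)) ℝ →ₗ[ℝ] MvPolynomial (Fin (n + 1)) ℝ :=
  (basisMonomials (Fin (n + 1)) ℝ).constr ℝ fun α => monomial (ex t α) (1 : ℝ)

lemma Th_monomial {n : ℕ} (t : ℕ) (α : Fin (n + 1) →₀ ℕ) (c : ℝ) :
    Th t (monomial α c) = monomial (ex t α) c := by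
  have h1 : monomial α c = c • (basisMonomials (Fin (n + 1)) ℝ α) := by
    rw [coe_basisMonomials, smul_monomial, smul_eq_mul, mul_one]
  have h2 : monomial (ex t α) c = c • monomial (ex t α) (1 : ℝ) := by
    rw [smul_monomial, smul_eq_mul, mul_one]
  rw [h1, map_smul, h2]
  unfold Th
  rw [Module.Basis.constr_basis]

end Pool.Agent.TH176.FB
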