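import Mathlib
import Pool.Agent.H15.G.R_seed8.TH176.FB.Model
import Pool.Agent.H15.G.R_seed8.TH176.FB.J15

/-!
From the model of the degeneration to the affine space: the limit argument.
-/

set_option autoImplicit false

namespace Pool.Agent.TH176.FB

open MvPolynomial

namespace J14

section

variable {A B : Type} [CommRing A] [CommRing B] {n : ℕ}

/-- the variables, with a natural number as index -/
noncomputable def yy (n : ℕ) (A : Type) [CommRing A] (j : ℕ) : MvPolynomial (Fin (n + 1)) A :=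
  if h : j < n + 1 then X ⟨j, h⟩ else 0

/-- the deformed coordinates -/
noncomputable def xx (n : ℕ) (t : ℕ) (ε : A) : ℕ → MvPolynomial (Fin (n + 1)) A
  | 0 => yy n A 0
  | j + 1 => xx n t ε j ^ t + C ε * yy n A (j + 1)

/-- the deformed monomials -/
noncomputable def bb (t : ℕ) (ε : A) (α : Fin (n + 1) →₀ ℕ) : MvPolynomial (Fin (n + 1)) A :=
  (∏ i : Fin n, xx n t ε i ^ (α i.castSucc % t)) * xx n t ε n ^ (α (Fin.last n)) *
    ∏ i : Fin n, yy n A (i + 1) ^ (α i.castSucc / t)

/-- the Taylor expansion over a ring -/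
noncomputable def sh {σ : Type} (p : σ → A) : MvPolynomial σ A →ₐ[A] MvPolynomial σ A :=
  aeval fun i => X i + C (p i)

lemma yy_succ (i : Fin n) : yy n A (i + 1) = X i.succ := by
  unfold yy
  rw [dif_pos (Nat.succ_lt_succ i.2)]
  rfl

lemma yy_zero : yy n A 0 = X 0 := by
  unfold yy
  rw [dif_pos (Nat.succ_pos n)]
  rfl

lemma map_yy (φ : A →+* B) (j : ℕ) : map φ (yy n A j) = yy n B j := by
  unfold yy
  split_ifs
  · exact map_X φ _
  · exact map_zero _

lemma map_xx (φ : A →+* B) (t : ℕ) (ε : A) (j : ℕ) :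
    map φ (xx n t ε j) = xx n t (φ ε) j := by
  induction j with
  | zero => exact map_yy φ 0
  | succ j ih =>
    unfold xx
    rw [map_add, map_pow, ih, map_mul, map_C, map_yy]

lemma map_bb (φ : A →+* B) (t : ℕ) (ε : A) (α : Fin (n + 1) →₀ ℕ) :
    map φ (bb t ε α) = bb t (φ ε) α := by
  unfold bb
  simp only [map_mul, map_prod, map_pow, map_xx, map_yy]

lemma map_sh {σ : Type} (φ : A →+* B) (p : σ → A) (f : MvPolynomial σ A) :
    map φ (sh p f) = sh (fun i => φ (p i)) (map φ f) := by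
  have h : ((map φ).comp (sh p).toRingHom : MvPolynomial σ A →+* MvPolynomial σ B) =
      ((sh (fun i => φ (p i))).toRingHom).comp (map φ) := by
    apply MvPolynomial.ringHom_ext
    · intro r
      simp [sh]
    · intro i
      simp [sh]
  exact congrArg (fun g : MvPolynomial σ A →+* MvPolynomial σ B => g f) h

lemma coeff_sh_bb (φ : A →+* B) (t : ℕ) (ε : A) (α a : Fin (n + 1) →₀ ℕ)
    (p : Fin (n + 1) → A) :
    φ (coeff a (sh p (bb t ε α))) = coeff a (sh (fun i => φ (p i)) (bb t (φ ε) α)) := by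
  rw [← coeff_map, map_sh, map_bb]

lemma xx_zero (t : ℕ) (j : ℕ) : xx n t (0 : A) j = X 0 ^ (t ^ j) := by
  induction j with
  | zero =>
    unfold xx
    rw [yy_zero, pow_zero, pow_one]
  | succ j ih =>
    unfold xx
    rw [ih, ← pow_mul, ← pow_succ, C_0, zero_mul, add_zero]

lemma bb_zero (t : ℕ) (α : Fin (n + 1) →₀ ℕ) :
    bb t (0 : ℝ) α = monomial (ex t α) 1 := by
  rw [monomial_eq, C_1, one_mul, Finsupp.prod_fintype _ _ (fun i => pow_zero _),
    Fin.prod_univ_succ]
  unfold bb ex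
  rw [Finsupp.cons_zero]
  congr 1
  · rw [pow_add, ← Finset.prod_pow_eq_pow_sum]
    congr 1
    · refine Finset.prod_congr rfl fun i _ => ?_
      rw [xx_zero, ← pow_mul, mul_comm]
    · rw [xx_zero, ← pow_mul, mul_comm]
  · refine Finset.prod_congr rfl fun i _ => ?_
    rw [yy_succ, Finsupp.cons_succ]
    rfl

end

/-- the monomials which are sent to the deformed monomials -/
noncomputable def bp {n : ℕ} (t : ℕ) (α : Fin (n + 1) →₀ ℕ) : MvPolynomial (Fin (n + 1)) ℝ :=
  (∏ i : Fin n, X i.castSucc ^ (α i.castSucc % t)) * X (Fin.last n) ^ (α (Fin.last n)) *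
    ∏ i : Fin n, (X i.succ - X i.castSucc ^ t) ^ (α i.castSucc / t)

lemma bp_deg {n : ℕ} {t : ℕ} (ht : 1 ≤ t) (α : Fin (n + 1) →₀ ℕ) :
    (bp t α).totalDegree ≤ α.degree := by
  have h1 : (∏ i : Fin n, (X i.castSucc : MvPolynomial (Fin (n + 1)) ℝ) ^
      (α i.castSucc % t)).totalDegree ≤ ∑ i : Fin n, α i.castSucc % t := by
    refine (totalDegree_finsetProd _ _).trans (Finset.sum_le_sum fun i _ => ?_)
    rw [totalDegree_X_pow]
  have h2 : ((X (Fin.last n) : MvPolynomial (Fin (n + 1)) ℝ) ^ (α (Fin.last n))).totalDegree ≤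
      α (Fin.last n) := by
    rw [totalDegree_X_pow]
  have h3 : (∏ i : Fin n, ((X i.succ : MvPolynomial (Fin (n + 1)) ℝ) - X i.castSucc ^ t) ^
      (α i.castSucc / t)).totalDegree ≤ ∑ i : Fin n, (α i.castSucc / t) * t := by
    refine (totalDegree_finsetProd _ _).trans (Finset.sum_le_sum fun i _ => ?_)
    refine (totalDegree_pow _ _).trans (Nat.mul_le_mul_left _ ?_)
    refine (totalDegree_sub _ _).trans (max_le ?_ ?_)
    · rw [totalDegree_X]
      exact ht
    · rw [totalDegree_X_pow]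
  have h4 : α.degree = ∑ i : Fin n, (α i.castSucc % t + (α i.castSucc / t) * t) +
      α (Fin.last n) := by
    rw [Finsupp.degree_eq_sum, Fin.sum_univ_castSucc]
    congr 1
    refine Finset.sum_congr rfl fun i _ => ?_
    rw [mul_comm]
    exact (Nat.mod_add_div _ _).symm
  unfold bp
  rw [h4, Finset.sum_add_distrib]
  have h5 := (totalDegree_mul ((∏ i : Fin n, (X i.castSucc : MvPolynomial (Fin (n + 1)) ℝ) ^
      (α i.castSucc % t)) * X (Fin.last n) ^ (α (Fin.last n)))
      (∏ i : Fin n, (X i.succ - X i.castSucc ^ t) ^ (α i.castSucc / t)))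
  have h6 := (totalDegree_mul (∏ i : Fin n, (X i.castSucc : MvPolynomial (Fin (n + 1)) ℝ) ^
      (α i.castSucc % t)) (X (Fin.last n) ^ (α (Fin.last n))))
  omega

/-- the substitution -/
noncomputable def ph {n : ℕ} (t : ℕ) (ε : ℝ) :
    MvPolynomial (Fin (n + 1)) ℝ →ₐ[ℝ] MvPolynomial (Fin (n + 1)) ℝ :=
  aeval fun j : Fin (n + 1) => xx n t ε j

lemma ph_bp {n : ℕ} (t : ℕ) (ε : ℝ) (α : Fin (n + 1) →₀ ℕ) :
    ph t ε (bp t α) = ε ^ (∑ i : Fin n, α i.castSucc / t) • bb t ε α := by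
  have h1 : ∀ i : Fin n, ph t ε (X i.succ - X i.castSucc ^ t) = C ε * yy n ℝ (i + 1) := by
    intro i
    unfold ph
    rw [map_sub, map_pow, aeval_X, aeval_X]
    simp only [Fin.val_succ, Fin.val_castSucc]
    rw [xx]
    ring
  unfold bp bb
  rw [map_mul, map_mul, map_prod, map_prod]
  simp only [map_pow, h1, mul_pow]
  rw [Finset.prod_mul_distrib, Finset.prod_pow_eq_pow_sum, ← C_pow]
  unfold ph
  simp only [aeval_X, Fin.val_castSucc, Fin.val_last]
  rw [smul_eq_C_mul]
  ring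

/-- the points -/
noncomputable def pt {n : ℕ} (t : ℕ) (ε : ℝ) (P : Fin (n + 1) → ℝ) : Fin (n + 1) → ℝ :=
  fun j => eval P (xx n t ε j)

lemma shift_const {n : ℕ} (P : Fin (n + 1) → ℝ) (f : MvPolynomial (Fin (n + 1)) ℝ) :
    coeff 0 (shift P f) = eval P f := by
  have h : (constantCoeff : MvPolynomial (Fin (n + 1)) ℝ →+* ℝ).comp
      (shift P).toRingHom = eval P := by
    apply MvPolynomial.ringHom_ext
    · intro r
      simp [shift]
    · intro i
      simp [shift]
  exact congrArg (fun g : MvPolynomial (Fin (n + 1)) ℝ →+* ℝ => g f) h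

/-- the change of the local coordinates -/
noncomputable def ps {n : ℕ} (t : ℕ) (ε : ℝ) (P : Fin (n + 1) → ℝ) :
    MvPolynomial (Fin (n + 1)) ℝ →ₐ[ℝ] MvPolynomial (Fin (n + 1)) ℝ :=
  aeval fun j : Fin (n + 1) => shift P (xx n t ε j) - C (pt t ε P j)

lemma shift_ph {n : ℕ} (t : ℕ) (ε : ℝ) (P : Fin (n + 1) → ℝ)
    (F : MvPolynomial (Fin (n + 1)) ℝ) :
    shift P (ph t ε F) = ps t ε P (shift (pt t ε P) F) := by
  have h : (shift P).comp (ph t ε) = (ps t ε P).comp (shift (pt t ε P)) := by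
    apply MvPolynomial.algHom_ext
    intro j
    rw [AlgHom.comp_apply, AlgHom.comp_apply]
    have h7 : shift (pt t ε P) (X j) = X j + C (pt t ε P j) := by
      unfold shift
      rw [aeval_X]
    rw [h7]
    unfold ph ps
    rw [aeval_X, map_add, aeval_X, aeval_C, algebraMap_eq]
    ring
  exact congrArg (fun g : MvPolynomial (Fin (n + 1)) ℝ →ₐ[ℝ] MvPolynomial (Fin (n + 1)) ℝ =>
    g F) h

lemma vanish_ph {n : ℕ} (t : ℕ) (ε : ℝ) (P : Fin (n + 1) → ℝ) (e : ℕ)
    (F : MvPolynomial (Fin (n + 1)) ℝ)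
    (h : ∀ a : Fin (n + 1) →₀ ℕ, a.degree ≤ e → coeff a (shift (pt t ε P) F) = 0) :
    ∀ a : Fin (n + 1) →₀ ℕ, a.degree ≤ e → coeff a (shift P (ph t ε F)) = 0 := by
  have h1 : shift (pt t ε P) F ∈ idealOfVars (Fin (n + 1)) ℝ ^ (e + 1) := by
    rw [mem_pow_idealOfVars_iff']
    exact fun a ha => h a (Nat.lt_succ_iff.1 ha)
  have h2 : Ideal.map (ps t ε P).toRingHom (idealOfVars (Fin (n + 1)) ℝ) ≤
      idealOfVars (Fin (n + 1)) ℝ := by
    unfold idealOfVars
    rw [Ideal.map_span, Ideal.span_le]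
    rintro _ ⟨_, ⟨j, rfl⟩, rfl⟩
    have h3 : ps t ε P (X j) ∈ idealOfVars (Fin (n + 1)) ℝ ^ 1 := by
      rw [mem_pow_idealOfVars_iff']
      intro a ha
      have ha0 : a = 0 := (Finsupp.degree_eq_zero_iff a).1 (by omega)
      rw [ha0]
      unfold ps
      rw [aeval_X, coeff_sub, shift_const, coeff_zero_C]
      exact sub_self _
    rw [pow_one] at h3
    exact h3
  have h4 : ps t ε P (shift (pt t ε P) F) ∈ idealOfVars (Fin (n + 1)) ℝ ^ (e + 1) := by
    have h5 := Ideal.mem_map_of_mem (ps t ε P).toRingHom h1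
    rw [Ideal.map_pow] at h5
    exact (Ideal.pow_right_mono h2 (e + 1)) h5
  rw [← shift_ph, mem_pow_idealOfVars_iff'] at h4
  exact fun a ha => h4 a (Nat.lt_succ_iff.2 ha)

lemma sh_eq_shift {n : ℕ} (P : Fin (n + 1) → ℝ) (f : MvPolynomial (Fin (n + 1)) ℝ) :
    sh P f = shift P f := rfl

end J14

open J14

theorem limit {n r : ℕ} (t k e : ℕ) (ht : 1 ≤ t) (P : Fin r → Fin (n + 1) → ℝ)
    (h : ∀ G : MvPolynomial (Fin (n + 1)) ℝ, G.totalDegree ≤ k →
      (∀ i, ∀ a : Fin (n + 1) →₀ ℕ, a.degree ≤ e → coeff a (shift (P i) (Th t G)) = 0) → G = 0) :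
    ∃ p : Fin r → Fin (n + 1) → ℝ, (∀ i, p i 0 = P i 0) ∧
      ∀ F : MvPolynomial (Fin (n + 1)) ℝ, F.totalDegree ≤ k →
        (∀ i, ∀ a : Fin (n + 1) →₀ ℕ, a.degree ≤ e → coeff a (shift (p i) F) = 0) → F = 0 := by
  classical
  let ι : Type := {α : Fin (n + 1) →₀ ℕ // α.degree ≤ k}
  let κ : Type := Fin r × {a : Fin (n + 1) →₀ ℕ // a.degree ≤ e}
  have f1 : Finite ι := (Finsupp.finite_of_degree_le k).to_subtype
  have f2 : Finite {a : Fin (n + 1) →₀ ℕ // a.degree ≤ e} :=
    (Finsupp.finite_of_degree_le e).to_subtype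
  let g1 : Fintype ι := Fintype.ofFinite ι
  let g2 : Fintype {a : Fin (n + 1) →₀ ℕ // a.degree ≤ e} := Fintype.ofFinite _
  let M : Matrix κ ι (Polynomial ℝ) := fun q α =>
    coeff q.2.1 (sh (fun j => Polynomial.C (P q.1 j)) (bb t (Polynomial.X : Polynomial ℝ) α.1))
  -- the value of the matrix
  have hM : ∀ (ε : ℝ) (c : ι → ℝ) (q : κ), (M.map (Polynomial.eval ε)).mulVec c q =
      coeff q.2.1 (shift (P q.1) (∑ α : ι, c α • bb t ε α.1)) := by
    intro ε c q
    rw [map_sum, coeff_sum]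
    unfold Matrix.mulVec dotProduct
    refine Finset.sum_congr rfl fun α _ => ?_
    rw [map_smul, coeff_smul, smul_eq_mul]
    show Polynomial.eval ε (M q α) * c α = c α * _
    rw [mul_comm]
    congr 1
    have h1 := coeff_sh_bb (Polynomial.evalRingHom ε) t (Polynomial.X : Polynomial ℝ) α.1 q.2.1
      (fun j => Polynomial.C (P q.1 j))
    simp only [Polynomial.coe_evalRingHom, Polynomial.eval_X, Polynomial.eval_C] at h1
    exact h1
  -- sums over the index set
  have hsup : ∀ c : ι → ℝ, ∀ β : Fin (n + 1) →₀ ℕ, ∀ hβ : β.degree ≤ k,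
      coeff β (∑ α : ι, monomial α.1 (c α)) = c ⟨β, hβ⟩ := by
    intro c β hβ
    rw [coeff_sum, Finset.sum_eq_single (⟨β, hβ⟩ : ι)]
    · rw [coeff_monomial, if_pos rfl]
    · intro α _ hα
      rw [coeff_monomial, if_neg]
      exact fun h5 => hα (Subtype.ext h5)
    · exact fun h5 => absurd (Finset.mem_univ _) h5
  have hinj0 : ∀ c : ι → ℝ, (M.map (Polynomial.eval 0)).mulVec c = 0 → c = 0 := by
    intro c hc
    have h1 : Th t (∑ α : ι, monomial α.1 (c α)) = ∑ α : ι, c α • bb t (0 : ℝ) α.1 := by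
      rw [map_sum]
      refine Finset.sum_congr rfl fun α _ => ?_
      rw [Th_monomial, bb_zero, smul_monomial, smul_eq_mul, mul_one]
    have h2 : (∑ α : ι, monomial α.1 (c α) : MvPolynomial (Fin (n + 1)) ℝ) = 0 := by
      apply h
      · refine totalDegree_finsetSum_le fun α _ => ?_
        refine (totalDegree_monomial_le _ _).trans ?_
        exact α.2
      · intro i a ha
        rw [h1, ← hM 0 c (i, ⟨a, ha⟩), hc]
        rfl
    funext α
    have h3 := hsup c α.1 α.2
    rw [h2, coeff_zero] at h3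
    exact h3.symm
  obtain ⟨ε, hε, hinj⟩ := inj_near M hinj0
  refine ⟨fun i => pt t ε (P i), fun i => ?_, ?_⟩
  · show eval (P i) (xx n t ε ((0 : Fin (n + 1)) : ℕ)) = P i 0
    rw [Fin.val_zero, xx, yy_zero, eval_X]
  -- combinations of the deformed monomials
  have hcomb : ∀ c : ι → ℝ, (∀ i, ∀ a : Fin (n + 1) →₀ ℕ, a.degree ≤ e →
      coeff a (shift (pt t ε (P i)) (∑ α : ι, c α • bp t α.1)) = 0) → c = 0 := by
    intro c hc
    have h1 : ph t ε (∑ α : ι, c α • bp t α.1) =
        ∑ α : ι, (c α * ε ^ (∑ i : Fin n, α.1 i.castSucc / t)) • bb t ε α.1 := by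
      rw [map_sum]
      refine Finset.sum_congr rfl fun α _ => ?_
      rw [map_smul, ph_bp, smul_smul]
    have h2 := hinj (fun α => c α * ε ^ (∑ i : Fin n, α.1 i.castSucc / t)) (by
      funext q
      rw [hM, ← h1]
      exact vanish_ph t ε (P q.1) e _ (hc q.1) q.2.1 q.2.2)
    funext α
    have h3 := congrFun h2 α
    simp only [Pi.zero_apply] at h3 ⊢
    exact (mul_eq_zero.1 h3).resolve_right (pow_ne_zero _ hε)
  have hdeg : ∀ c : ι → ℝ, (∑ α : ι, c α • bp t α.1).totalDegree ≤ k := by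
    intro c
    refine totalDegree_finsetSum_le fun α _ => ?_
    exact (totalDegree_smul_le _ _).trans ((bp_deg ht _).trans α.2)
  have hzero : ∀ F : MvPolynomial (Fin (n + 1)) ℝ, F.totalDegree ≤ k →
      (∀ β : Fin (n + 1) →₀ ℕ, β.degree ≤ k → coeff β F = 0) → F = 0 := by
    intro F hF hβ
    ext β
    rw [coeff_zero]
    by_cases hk : β.degree ≤ k
    · exact hβ β hk
    · apply coeff_eq_zero_of_totalDegree_lt
      rw [not_le] at hk
      refine lt_of_le_of_lt hF ?_
      rw [Finsupp.degree_apply] at hk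
      exact hk
  let Λ : (ι → ℝ) →ₗ[ℝ] (ι → ℝ) :=
    { toFun := fun c β => coeff β.1 (∑ α : ι, c α • bp t α.1)
      map_add' := by
        intro c d
        funext β
        simp only [Pi.add_apply, add_smul, Finset.sum_add_distrib, coeff_add]
      map_smul' := by
        intro x c
        funext β
        simp only [Pi.smul_apply, smul_eq_mul, RingHom.id_apply, mul_smul, ← Finset.smul_sum,
          coeff_smul] }
  have hΛ : Function.Injective Λ := by
    rw [← LinearMap.ker_eq_bot, LinearMap.ker_eq_bot']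
    intro c hc
    have h1 : ∑ α : ι, c α • bp t α.1 = 0 := by
      apply hzero _ (hdeg c)
      intro β hβ
      exact congrFun hc ⟨β, hβ⟩
    apply hcomb
    intro i a _
    rw [h1, map_zero, coeff_zero]
  have hsur : Function.Surjective Λ := LinearMap.injective_iff_surjective.1 hΛ
  intro F hF hv
  obtain ⟨c, hc⟩ := hsur (fun β => coeff β.1 F)
  have h1 : ∑ α : ι, c α • bp t α.1 = F := by
    rw [← sub_eq_zero]
    apply hzero
    · exact (totalDegree_sub _ _).trans (max_le (hdeg c) hF)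
    · intro β hβ
      rw [coeff_sub, sub_eq_zero]
      exact congrFun hc ⟨β, hβ⟩
  have h2 : c = 0 := by
    apply hcomb
    intro i a ha
    rw [h1]
    exact hv i a ha
  rw [← h1, h2]
  simp

end Pool.Agent.TH176.FB
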