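import Pool.Agent.H15.G.R_seed8.TH176.FB.J12
import Pool.Agent.H15.G.R_seed8.TH176.FB.Model
import Pool.Agent.H15.G.R_seed8.TH176.FB.J6

/-!
The model: no polynomial of low degree has high multiplicity at the chosen points.
-/

set_option autoImplicit false

namespace Pool.Agent.TH176.FB

open MvPolynomial Finset

namespace J13

/-- Uniqueness of digits. -/
lemma dig_inj (t : ℕ) : ∀ (n : ℕ) (a b : Fin n → ℕ) (c d : ℕ), (∀ i, a i < t) → (∀ i, b i < t) →
    ∑ i, a i * t ^ (i : ℕ) + c * t ^ n = ∑ i, b i * t ^ (i : ℕ) + d * t ^ n → a = b ∧ c = d := by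
  intro n
  induction n with
  | zero =>
    intro a b c d _ _ h
    refine ⟨Subsingleton.elim _ _, ?_⟩
    simpa using h
  | succ n ih =>
    intro a b c d ha hb h
    rw [Fin.sum_univ_succ, Fin.sum_univ_succ] at h
    simp only [Fin.val_zero, pow_zero, mul_one, Fin.val_succ] at h
    have e1 : ∀ (x : Fin (n + 1) → ℕ) (y : ℕ), x 0 + ∑ i : Fin n, x i.succ * t ^ ((i : ℕ) + 1) +
        y * t ^ (n + 1) = x 0 + t * (∑ i : Fin n, x i.succ * t ^ (i : ℕ) + y * t ^ n) := by
      intro x y
      have e2 : ∑ i : Fin n, x i.succ * t ^ ((i : ℕ) + 1) =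
          t * ∑ i : Fin n, x i.succ * t ^ (i : ℕ) := by
        rw [Finset.mul_sum]
        exact Finset.sum_congr rfl fun i _ => by ring
      rw [e2]
      ring
    rw [e1, e1] at h
    have ht : 0 < t := lt_of_le_of_lt (Nat.zero_le _) (ha 0)
    have h0 : a 0 = b 0 := by
      have := congrArg (· % t) h
      simpa [Nat.add_mul_mod_self_left, Nat.mod_eq_of_lt (ha 0), Nat.mod_eq_of_lt (hb 0)] using this
    rw [h0] at h
    have h1 := Nat.eq_of_mul_eq_mul_left ht (Nat.add_left_cancel h)
    obtain ⟨h2, h3⟩ := ih (fun i => a i.succ) (fun i => b i.succ) c d (fun i => ha _)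
      (fun i => hb _) h1
    refine ⟨?_, h3⟩
    funext i
    refine Fin.cases h0 (fun i => congrFun h2 i) i

lemma ex_zero {n : ℕ} (t : ℕ) (α : Fin (n + 1) →₀ ℕ) :
    ex t α 0 = ∑ i : Fin n, (α i.castSucc % t) * t ^ (i : ℕ) + α (Fin.last n) * t ^ n := by
  simp [ex]

lemma ex_succ {n : ℕ} (t : ℕ) (α : Fin (n + 1) →₀ ℕ) (i : Fin n) :
    ex t α i.succ = α i.castSucc / t := by
  simp [ex]

lemma ext_last {n : ℕ} {α β : Fin (n + 1) →₀ ℕ} (h : ∀ i : Fin n, α i.castSucc = β i.castSucc)
    (h' : α (Fin.last n) = β (Fin.last n)) : α = β := by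
  ext i
  exact Fin.lastCases h' h i

/-- The first exponent and the others determine the index. -/
lemma ex_inj {n t : ℕ} (ht : 1 ≤ t) : Function.Injective (ex (n := n) t) := by
  intro α β h
  have h0 := DFunLike.congr_fun h 0
  rw [ex_zero, ex_zero] at h0
  obtain ⟨h1, h2⟩ := dig_inj t n (fun i => α i.castSucc % t) (fun i => β i.castSucc % t) _ _
    (fun i => Nat.mod_lt _ ht) (fun i => Nat.mod_lt _ ht) h0
  refine ext_last (fun i => ?_) h2
  have h3 := DFunLike.congr_fun h i.succ
  rw [ex_succ, ex_succ] at h3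
  have h4 : α i.castSucc % t = β i.castSucc % t := congrFun h1 i
  rw [← Nat.div_add_mod (α i.castSucc) t, ← Nat.div_add_mod (β i.castSucc) t, h3, h4]

/-- `α + t γ` on the first `n` entries. -/
noncomputable def up {n : ℕ} (t : ℕ) (γ : Fin n →₀ ℕ) (α : Fin (n + 1) →₀ ℕ) :
    Fin (n + 1) →₀ ℕ :=
  Finsupp.equivFunOnFinite.symm (Fin.snoc (fun i => α i.castSucc + t * γ i) (α (Fin.last n)))

/-- `α - t γ` on the first `n` entries. -/
noncomputable def dn {n : ℕ} (t : ℕ) (γ : Fin n →₀ ℕ) (α : Fin (n + 1) →₀ ℕ) :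
    Fin (n + 1) →₀ ℕ :=
  Finsupp.equivFunOnFinite.symm (Fin.snoc (fun i => α i.castSucc - t * γ i) (α (Fin.last n)))

lemma dn_castSucc {n : ℕ} (t : ℕ) (γ : Fin n →₀ ℕ) (α : Fin (n + 1) →₀ ℕ) (i : Fin n) :
    dn t γ α i.castSucc = α i.castSucc - t * γ i := by
  simp [dn]

lemma dn_last {n : ℕ} (t : ℕ) (γ : Fin n →₀ ℕ) (α : Fin (n + 1) →₀ ℕ) :
    dn t γ α (Fin.last n) = α (Fin.last n) := by
  simp [dn]

/-- The last exponents. -/
noncomputable def be {n : ℕ} (t : ℕ) (α : Fin (n + 1) →₀ ℕ) : Fin n →₀ ℕ :=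
  Finsupp.equivFunOnFinite.symm fun i : Fin n => α i.castSucc / t

lemma be_apply {n : ℕ} (t : ℕ) (α : Fin (n + 1) →₀ ℕ) (i : Fin n) :
    be t α i = α i.castSucc / t := by simp [be]

lemma le_of_be {n t : ℕ} {γ : Fin n →₀ ℕ} {α : Fin (n + 1) →₀ ℕ} (h : γ ≤ be t α) (i : Fin n) :
    t * γ i ≤ α i.castSucc := by
  have h1 := h i
  rw [be_apply] at h1
  calc t * γ i ≤ t * (α i.castSucc / t) := Nat.mul_le_mul_left _ h1
    _ ≤ _ := Nat.mul_div_le _ _

lemma degree_snoc {n : ℕ} (α : Fin (n + 1) →₀ ℕ) :
    α.degree = ∑ i : Fin n, α i.castSucc + α (Fin.last n) := by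
  rw [Finsupp.degree_eq_sum, Fin.sum_univ_castSucc]

lemma degree_dn {n t : ℕ} {γ : Fin n →₀ ℕ} {α : Fin (n + 1) →₀ ℕ} (h : γ ≤ be t α) :
    (dn t γ α).degree + t * γ.degree = α.degree := by
  rw [degree_snoc, degree_snoc, dn_last, Finsupp.degree_eq_sum, Finset.mul_sum]
  have h1 : ∑ i : Fin n, α i.castSucc = ∑ i : Fin n, dn t γ α i.castSucc + ∑ i, t * γ i := by
    rw [← Finset.sum_add_distrib]
    refine Finset.sum_congr rfl fun i _ => ?_
    rw [dn_castSucc, Nat.sub_add_cancel (le_of_be h i)]
  omega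

lemma dn_inj {n t : ℕ} {γ : Fin n →₀ ℕ} {α β : Fin (n + 1) →₀ ℕ} (h : γ ≤ be t α)
    (h' : γ ≤ be t β) (he : dn t γ α = dn t γ β) : α = β := by
  refine ext_last (fun i => ?_) ?_
  · have h1 := DFunLike.congr_fun he i.castSucc
    rw [dn_castSucc, dn_castSucc] at h1
    have h2 := le_of_be h i
    have h3 := le_of_be h' i
    omega
  · have h1 := DFunLike.congr_fun he (Fin.last n)
    rwa [dn_last, dn_last] at h1

lemma ex_dn_zero {n t : ℕ} {γ : Fin n →₀ ℕ} {α : Fin (n + 1) →₀ ℕ} (h : γ ≤ be t α) :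
    ex t (dn t γ α) 0 = ex t α 0 := by
  rw [ex_zero, ex_zero, dn_last]
  congr 1
  refine Finset.sum_congr rfl fun i _ => ?_
  congr 1
  rw [dn_castSucc]
  have h1 := le_of_be h i
  conv_rhs => rw [← Nat.sub_add_cancel h1]
  rw [Nat.add_mul_mod_self_left]

lemma ex_dn_succ {n t : ℕ} {γ : Fin n →₀ ℕ} {α : Fin (n + 1) →₀ ℕ}
    (i : Fin n) : ex t (dn t γ α) i.succ = ex t α i.succ - γ i := by
  rw [ex_succ, ex_succ, dn_castSucc, Nat.sub_mul_div]

lemma card_S_le (n j r : ℕ) (hj : (j + n + 1).choose (n + 1) ≤ r) : (J6.S (n + 1) j).card ≤ r := by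
  refine le_trans ?_ hj
  have h1 : (Finset.finsuppAntidiag (Finset.univ : Finset (Fin (n + 2))) j).card =
      (j + n + 1).choose (n + 1) := by
    rw [Finset.card_finsuppAntidiag_nat_eq_choose]
    simp only [Finset.card_univ, Fintype.card_fin]
    have h2 : n + 2 + j - 1 = j + (n + 1) := by omega
    rw [h2, Nat.choose_symm_add]
    congr 1
  rw [← h1]
  refine Finset.card_le_card_of_injOn (fun α => Finsupp.cons (j - α.degree) α) (fun α hα => ?_)
    (fun α _ β _ h => ?_)
  · have hα' : α.degree ≤ j := J6.mem_S.1 hα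
    rw [Finset.mem_coe, Finset.mem_finsuppAntidiag]
    refine ⟨?_, by simp⟩
    rw [Fin.sum_univ_succ]
    simp only [Finsupp.cons_zero, Finsupp.cons_succ]
    rw [← Finsupp.degree_eq_sum]
    omega
  · have h2 := congrArg Finsupp.tail h
    simpa using h2

/-- A polynomial with few terms which vanishes at many positive points. -/
lemma few {ι : Type} (A : Finset ι) (f : ι → ℕ) (hf : Set.InjOn f A) (c : ι → ℝ)
    (S : Finset ℝ) (hS : ∀ x ∈ S, 0 < x) (m : ℕ)
    (h : ∀ x ∈ S, ∀ a < m, ∑ α ∈ A, c α * (((f α).choose a : ℝ) * x ^ (f α - a)) = 0)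
    (hcard : A.card ≤ m * S.card) : ∀ α ∈ A, c α = 0 := by
  classical
  let q : Polynomial ℝ := ∑ α ∈ A, Polynomial.monomial (f α) (c α)
  have hcoef : ∀ α ∈ A, q.coeff (f α) = c α := by
    intro α hα
    simp only [q, Polynomial.finsetSum_coeff, Polynomial.coeff_monomial]
    rw [Finset.sum_eq_single α]
    · simp
    · intro β hβ hne
      rw [if_neg]
      intro h1
      exact hne (hf hβ hα h1)
    · intro h1
      exact absurd hα h1
  by_cases hq : q = 0
  · intro α hα
    rw [← hcoef α hα, hq, Polynomial.coeff_zero]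
  exfalso
  have hsupp : q.support.card ≤ A.card := by
    refine (Finset.card_le_card (?_ : q.support ⊆ A.image f)).trans Finset.card_image_le
    intro k hk
    rw [Polynomial.mem_support_iff] at hk
    simp only [q, Polynomial.finsetSum_coeff, Polynomial.coeff_monomial] at hk
    obtain ⟨α, hα, h1⟩ := Finset.exists_ne_zero_of_sum_ne_zero hk
    rw [Finset.mem_image]
    refine ⟨α, hα, ?_⟩
    by_contra h2
    exact h1 (if_neg h2)
  have h1 := descartes q hq S m (fun x hx => ⟨hS x hx, ?_⟩)
  · omega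
  · rw [Polynomial.le_rootMultiplicity_iff hq]
    -- the Taylor coefficients vanish
    have h2 : Polynomial.X ^ m ∣ Polynomial.taylor x q := by
      rw [Polynomial.X_pow_dvd_iff]
      intro a ha
      rw [Polynomial.taylor_coeff]
      simp only [q, map_sum, Polynomial.hasseDeriv_monomial, Polynomial.eval_finsetSum,
        Polynomial.eval_monomial]
      rw [← h x hx a ha]
      refine Finset.sum_congr rfl fun α _ => ?_
      ring
    rw [Polynomial.taylor_apply] at h2
    exact Polynomial.X_sub_C_pow_dvd_iff.2 h2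

lemma Th_sum {n : ℕ} (t : ℕ) (G : MvPolynomial (Fin (n + 1)) ℝ) :
    Th t G = ∑ α ∈ G.support, monomial (ex t α) (coeff α G) := by
  conv_lhs => rw [← support_sum_monomial_coeff G]
  rw [map_sum]
  exact Finset.sum_congr rfl fun α _ => Th_monomial t α _

lemma shift_Th {n : ℕ} (t : ℕ) (G : MvPolynomial (Fin (n + 1)) ℝ) (p : Fin (n + 1) → ℝ)
    (a : Fin (n + 1) →₀ ℕ) :
    coeff a (shift p (Th t G)) = ∑ α ∈ G.support, coeff α G *
      ∏ l, (((ex t α l).choose (a l) : ℝ) * p l ^ (ex t α l - a l)) := by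
  rw [Th_sum, map_sum, coeff_sum]
  refine Finset.sum_congr rfl fun α _ => ?_
  have h1 : monomial (ex t α) (coeff α G) = coeff α G • monomial (ex t α) (1 : ℝ) := by
    rw [smul_monomial, smul_eq_mul, mul_one]
  rw [h1, map_smul, coeff_smul, J6.shift_coeff, smul_eq_mul]

/-- The exponent of `u` after the substitution. -/
noncomputable def Q {n : ℕ} (B t : ℕ) (α : Fin (n + 1) →₀ ℕ) : ℕ := ∑ l, ex t α l * B ^ (l : ℕ)

lemma ex_lt {n t j : ℕ} (ht : 1 ≤ t) {α : Fin (n + 1) →₀ ℕ} (h : α.degree ≤ j)
    (l : Fin (n + 1)) : ex t α l < j * t ^ n + j + 2 := by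
  have h0 := degree_snoc α
  refine Fin.cases ?_ (fun i => ?_) l
  · rw [ex_zero]
    have h1 : ∑ i : Fin n, (α i.castSucc % t) * t ^ (i : ℕ) ≤
        (∑ i : Fin n, α i.castSucc) * t ^ n := by
      rw [Finset.sum_mul]
      refine Finset.sum_le_sum fun i _ => Nat.mul_le_mul (Nat.mod_le _ _) ?_
      exact Nat.pow_le_pow_right ht i.2.le
    have h2 : (∑ i : Fin n, α i.castSucc) * t ^ n + α (Fin.last n) * t ^ n ≤ j * t ^ n := by
      rw [← add_mul, ← h0]
      exact Nat.mul_le_mul_right _ h
    omega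
  · rw [ex_succ]
    have h1 : α i.castSucc / t ≤ α i.castSucc := Nat.div_le_self _ _
    have h2 : α i.castSucc ≤ ∑ i : Fin n, α i.castSucc :=
      Finset.single_le_sum (f := fun i : Fin n => α i.castSucc) (fun _ _ => Nat.zero_le _)
        (Finset.mem_univ i)
    omega

lemma Q_inj {n t j : ℕ} (ht : 1 ≤ t) {α β : Fin (n + 1) →₀ ℕ} (hα : α.degree ≤ j)
    (hβ : β.degree ≤ j) (h : Q (j * t ^ n + j + 2) t α = Q (j * t ^ n + j + 2) t β) : α = β := by
  apply ex_inj ht
  have h1 := (dig_inj (j * t ^ n + j + 2) (n + 1) (fun l => ex t α l) (fun l => ex t β l) 0 0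
    (fun l => ex_lt ht hα l) (fun l => ex_lt ht hβ l) (by simpa [Q] using h)).1
  exact DFunLike.coe_injective h1

lemma degree_cons {n : ℕ} (x : ℕ) (γ : Fin n →₀ ℕ) :
    (Finsupp.cons x γ).degree = x + γ.degree := by
  rw [Finsupp.degree_eq_sum, Finsupp.degree_eq_sum, Fin.sum_univ_succ]
  simp

lemma le_totalDegree' {n : ℕ} {G : MvPolynomial (Fin n) ℝ} {α : Fin n →₀ ℕ}
    (h : α ∈ G.support) : α.degree ≤ G.totalDegree := by
  have h1 := le_totalDegree h
  rwa [Finsupp.degree_apply]

end J13

open J13 in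
/-- No polynomial of the model of degree at most `j + t * e` has multiplicity `e + 1` at the chosen
points. -/
theorem tmodel (n t j r : ℕ) (ht : 1 ≤ t) (hr : t ^ (n + 1) ≤ r)
    (hj : (j + n + 1).choose (n + 1) ≤ r) :
    ∃ P : Fin r → Fin (n + 1) → ℝ, (Function.Injective fun i => P i 0) ∧
      ∀ (e : ℕ) (G : MvPolynomial (Fin (n + 1)) ℝ), G.totalDegree ≤ j + t * e →
        (∀ i, ∀ a : Fin (n + 1) →₀ ℕ, a.degree ≤ e → coeff a (shift (P i) (Th t G)) = 0) →
        G = 0 := by
  classical
  obtain ⟨B, hB⟩ : ∃ B, B = j * t ^ n + j + 2 := ⟨_, rfl⟩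
  have hinj : Function.Injective fun i : Fin r => ((i : ℕ) : ℝ) + 1 := by
    intro i i' h
    have h1 : ((i : ℕ) : ℝ) = ((i' : ℕ) : ℝ) := by simpa using h
    exact Fin.ext (by exact_mod_cast h1)
  refine ⟨fun i l => (((i : ℕ) : ℝ) + 1) ^ (B ^ (l : ℕ)), ?_, fun e G hG h => ?_⟩
  · intro i i' h
    apply hinj
    simpa using h
  by_contra hG0
  let S : Finset ℝ := Finset.univ.image fun i : Fin r => ((i : ℕ) : ℝ) + 1
  have hScard : S.card = r := by
    rw [Finset.card_image_of_injective _ hinj, Finset.card_univ, Fintype.card_fin]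
  have hSpos : ∀ x ∈ S, 0 < x := by
    intro x hx
    obtain ⟨i, _, rfl⟩ := Finset.mem_image.1 hx
    positivity
  have hdeg : ∀ α ∈ G.support, α.degree ≤ j + t * e := fun α hα =>
    (le_totalDegree' hα).trans hG
  obtain ⟨α1, hα1, hmax⟩ := Finset.exists_max_image G.support (fun α => (be t α).degree)
    (support_nonempty.2 hG0)
  obtain ⟨b, hb⟩ : ∃ b, b = (be t α1).degree := ⟨_, rfl⟩
  have hc1 : coeff α1 G ≠ 0 := mem_support_iff.1 hα1
  -- the conditions
  have hcond : ∀ (i : Fin r) (a0 : ℕ) (γ : Fin n →₀ ℕ), a0 + γ.degree ≤ e →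
      ∑ α ∈ G.support, coeff α G * ((((ex t α 0).choose a0 : ℝ) *
        (((i : ℕ) : ℝ) + 1) ^ (ex t α 0 - a0)) *
        ∏ l, (((be t α l).choose (γ l) : ℝ) *
          ((((i : ℕ) : ℝ) + 1) ^ (B ^ ((l : ℕ) + 1))) ^ (be t α l - γ l))) = 0 := by
    intro i a0 γ ha
    have h1 := h i (Finsupp.cons a0 γ) (by rw [degree_cons]; exact ha)
    rw [shift_Th] at h1
    rw [← h1]
    refine Finset.sum_congr rfl fun α _ => ?_
    rw [Fin.prod_univ_succ]
    simp only [Finsupp.cons_zero, Finsupp.cons_succ, Fin.val_zero, pow_zero, pow_one, Fin.val_succ,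
      ex_succ, be_apply]
  rcases le_or_gt e b with hbe | hbe
  · -- differentiate `e` times
    obtain ⟨γ, hγ, hγe⟩ := Finsupp.exists_le_degree_eq (be t α1) e (by omega)
    let A := G.support.filter fun α => γ ≤ be t α
    have hA : ∀ α ∈ A, γ ≤ be t α := fun α hα => (Finset.mem_filter.1 hα).2
    have hA' : ∀ α ∈ A, (dn t γ α).degree ≤ j := by
      intro α hα
      have h1 := degree_dn (hA α hα)
      have h2 := hdeg α (Finset.mem_filter.1 hα).1
      rw [hγe] at h1
      omega
    have hkey := few A (fun α => Q B t (dn t γ α)) (fun α hα β hβ he => by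
        subst hB
        exact dn_inj (hA α hα) (hA β hβ) (Q_inj ht (hA' α hα) (hA' β hβ) he))
      (fun α => coeff α G * ∏ l, ((be t α l).choose (γ l) : ℝ)) S hSpos 1 (fun x hx a ha => ?_) ?_
      α1 (Finset.mem_filter.2 ⟨hα1, hγ⟩)
    · rcases mul_eq_zero.1 hkey with h1 | h1
      · exact hc1 h1
      · obtain ⟨l, _, h2⟩ := Finset.prod_eq_zero_iff.1 h1
        have h3 : 0 < (be t α1 l).choose (γ l) := Nat.choose_pos (hγ l)
        have h4 : (be t α1 l).choose (γ l) = 0 := by exact_mod_cast h2
        omega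
    · obtain ⟨i, _, rfl⟩ := Finset.mem_image.1 hx
      obtain rfl : a = 0 := by omega
      have h1 := hcond i 0 γ (by omega)
      rw [← h1, ← Finset.sum_subset (Finset.filter_subset (fun α => γ ≤ be t α) G.support)]
      · refine Finset.sum_congr rfl fun α hα => ?_
        have hα' := hA α hα
        simp only [Nat.choose_zero_right, Nat.cast_one, one_mul, Nat.sub_zero]
        rw [Finset.prod_mul_distrib]
        have h2 : (((i : ℕ) : ℝ) + 1) ^ (Q B t (dn t γ α)) = (((i : ℕ) : ℝ) + 1) ^ (ex t α 0) *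
            ∏ l : Fin n, ((((i : ℕ) : ℝ) + 1) ^ (B ^ ((l : ℕ) + 1))) ^ (be t α l - γ l) := by
          unfold Q
          rw [Fin.sum_univ_succ, pow_add, ex_dn_zero hα', Fin.val_zero, pow_zero, mul_one]
          congr 1
          rw [← Finset.prod_pow_eq_pow_sum]
          refine Finset.prod_congr rfl fun l _ => ?_
          rw [ex_dn_succ, ex_succ, be_apply, Fin.val_succ, ← pow_mul, mul_comm]
        rw [h2]
        ring
      · intro α hα hα2
        have h2 : ¬ γ ≤ be t α := fun h3 => hα2 (Finset.mem_filter.2 ⟨hα, h3⟩)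
        obtain ⟨l, hl⟩ : ∃ l, be t α l < γ l := by
          by_contra h3
          push Not at h3
          exact h2 h3
        have h3 : (be t α l).choose (γ l) = 0 := Nat.choose_eq_zero_of_lt hl
        rw [Finset.prod_eq_zero (Finset.mem_univ l) (by rw [h3, Nat.cast_zero, zero_mul]),
          mul_zero, mul_zero]
    · rw [hScard, one_mul]
      refine le_trans ?_ (card_S_le n j r hj)
      refine Finset.card_le_card_of_injOn (dn t γ) (fun α hα => ?_) (fun α hα β hβ he => ?_)
      · exact J6.mem_S.2 (hA' α hα)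
      · exact dn_inj (hA α hα) (hA β hβ) he
  · -- the top coefficient in the `s`-direction
    let A := G.support.filter fun α => be t α = be t α1
    have hA : ∀ α ∈ A, be t α = be t α1 := fun α hα => (Finset.mem_filter.1 hα).2
    have hAs : ∀ α ∈ A, α ∈ G.support := fun α hα => (Finset.mem_filter.1 hα).1
    have hkey := few A (fun α => ex t α 0) (fun α hα β hβ he => by
        apply ex_inj ht
        ext l
        refine Fin.cases he (fun i => ?_) l
        have h1 := DFunLike.congr_fun ((hA α hα).trans (hA β hβ).symm) i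
        rw [be_apply, be_apply] at h1
        rw [ex_succ, ex_succ, h1])
      (fun α => coeff α G) S hSpos (e - b + 1) (fun x hx a ha => ?_) ?_
      α1 (Finset.mem_filter.2 ⟨hα1, rfl⟩)
    · exact hc1 hkey
    · obtain ⟨i, _, rfl⟩ := Finset.mem_image.1 hx
      have h1 := hcond i a (be t α1) (by omega)
      rw [← h1, ← Finset.sum_subset (Finset.filter_subset (fun α => be t α = be t α1) G.support)]
      · refine Finset.sum_congr rfl fun α hα => ?_
        rw [Finset.prod_eq_one, mul_one]
        intro l _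
        rw [hA α hα, Nat.choose_self, Nat.sub_self, pow_zero, Nat.cast_one, mul_one]
      · intro α hα hα2
        have h2 : ¬ be t α1 ≤ be t α := by
          intro h3
          apply hα2
          refine Finset.mem_filter.2 ⟨hα, ?_⟩
          have h4 := hmax α hα
          by_contra h5
          have h6 : be t α1 < be t α := lt_of_le_of_ne h3 (Ne.symm h5)
          have h7 : (be t α1).degree < (be t α).degree := by
            rw [Finsupp.degree_eq_sum, Finsupp.degree_eq_sum]
            obtain ⟨l, hl⟩ : ∃ l, be t α1 l ≠ be t α l := by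
              by_contra h8
              push Not at h8
              exact h5 (Finsupp.ext fun l => (h8 l).symm)
            exact Finset.sum_lt_sum (fun l _ => h3 l) ⟨l, Finset.mem_univ _,
              lt_of_le_of_ne (h3 l) hl⟩
          exact absurd h4 (not_le.2 h7)
        obtain ⟨l, hl⟩ : ∃ l, be t α l < be t α1 l := by
          by_contra h3
          push Not at h3
          exact h2 h3
        have h3 : (be t α l).choose (be t α1 l) = 0 := Nat.choose_eq_zero_of_lt hl
        rw [Finset.prod_eq_zero (Finset.mem_univ l) (by rw [h3, Nat.cast_zero, zero_mul]),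
          mul_zero, mul_zero]
    · rw [hScard]
      -- the number of the terms
      obtain ⟨c, hc⟩ : ∃ c, e = b + c := ⟨e - b, by omega⟩
      have hcb : e - b = c := by omega
      rw [hcb]
      have hdd : ∀ α ∈ A, (dn t (be t α1) α).degree ≤ j + t * c := by
        intro α hα
        have h1 := degree_dn (le_of_eq (hA α hα).symm)
        have h2 := hdeg α (hAs α hα)
        rw [← hb] at h1
        rw [hc, mul_add] at h2
        omega
      have hsplit := Finset.card_filter_add_card_filter_not (s := A)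
        (fun α => α (Fin.last n) < t * c)
      have h1 : (A.filter fun α => α (Fin.last n) < t * c).card ≤ r * c := by
        refine le_trans ?_ (Nat.mul_le_mul_right c hr)
        have h2 : ((Fintype.piFinset fun _ : Fin n => Finset.range t) ×ˢ
            Finset.range (t * c)).card = t ^ (n + 1) * c := by
          rw [Finset.card_product, Fintype.card_piFinset_const, Finset.card_range,
            Finset.card_range]
          ring
        rw [← h2]
        refine Finset.card_le_card_of_injOn
          (fun α => ((fun i : Fin n => α i.castSucc % t), α (Fin.last n))) (fun α hα => ?_)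
          (fun α hα β hβ he => ?_)
        · have h3 := (Finset.mem_filter.1 hα).2
          simp only [Finset.coe_product, Set.mem_prod, Finset.mem_coe, Fintype.mem_piFinset,
            Finset.mem_range]
          exact ⟨fun i => Nat.mod_lt _ ht, h3⟩
        · have h3 := (Finset.mem_filter.1 hα).1
          have h4 := (Finset.mem_filter.1 hβ).1
          simp only [Prod.mk.injEq] at he
          refine ext_last (fun i => ?_) he.2
          have h5 : α i.castSucc % t = β i.castSucc % t := congrFun he.1 i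
          have h6 := DFunLike.congr_fun ((hA α h3).trans (hA β h4).symm) i
          rw [be_apply, be_apply] at h6
          rw [← Nat.div_add_mod (α i.castSucc) t, ← Nat.div_add_mod (β i.castSucc) t, h6, h5]
      have h2 : (A.filter fun α => ¬ α (Fin.last n) < t * c).card ≤ r := by
        refine le_trans ?_ (card_S_le n j r hj)
        refine Finset.card_le_card_of_injOn
          (fun α => Finsupp.equivFunOnFinite.symm (Fin.snoc (fun i : Fin n =>
            dn t (be t α1) α i.castSucc) (α (Fin.last n) - t * c))) (fun α hα => ?_)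
          (fun α hα β hβ he => ?_)
        · have h3 := (Finset.mem_filter.1 hα).1
          have h4 := (Finset.mem_filter.1 hα).2
          have h5 := hdd α h3
          rw [degree_snoc, dn_last] at h5
          rw [Finset.mem_coe, J6.mem_S, degree_snoc]
          simp only [Finsupp.coe_equivFunOnFinite_symm, Fin.snoc_castSucc, Fin.snoc_last]
          omega
        · have h3 := (Finset.mem_filter.1 hα).1
          have h3' := (Finset.mem_filter.1 hβ).1
          have h4 := (Finset.mem_filter.1 hα).2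
          have h4' := (Finset.mem_filter.1 hβ).2
          have he' := Finsupp.equivFunOnFinite.symm.injective he
          refine dn_inj (le_of_eq (hA α h3).symm) (le_of_eq (hA β h3').symm) ?_
          refine ext_last (fun i => ?_) ?_
          · have h5 := congrFun he' i.castSucc
            simpa only [Fin.snoc_castSucc] using h5
          · have h5 := congrFun he' (Fin.last n)
            simp only [Fin.snoc_last] at h5
            rw [dn_last, dn_last]
            omega
      calc A.card = _ := hsplit.symm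
        _ ≤ r * c + r := Nat.add_le_add h1 h2
        _ = (c + 1) * r := by ring

end Pool.Agent.TH176.FB
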