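import Pool.Agent.H15.G.R_seed8.TH176.FB.J12
import Pool.Agent.H15.G.R_seed8.TH176.FB.J13
import Pool.Agent.H15.G.R_seed8.TH176.FB.Hc

/-!
The model, with all but `n` of the points on the curve: no polynomial of degree `t * m + c` with
multiplicity `m` at the points.
-/

set_option autoImplicit false

namespace Pool.Agent.TH176.FB

open MvPolynomial Finset

namespace J17

open J13

theorem descartes' {κ : Type} [Fintype κ] (f : Polynomial ℝ) (hf : f ≠ 0) (u : κ → ℝ)
    (hu : Function.Injective u) (μ : κ → ℕ)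
    (hS : ∀ i, 0 < u i ∧ μ i ≤ f.rootMultiplicity (u i)) : ∑ i, μ i < f.support.card := by
  classical
  refine lt_of_le_of_lt ?_ ((Polynomial.roots_countP_pos_le_signVariations f).trans_lt
    (J12.signVariations_lt _ f rfl hf))
  rw [Multiset.countP_eq_card_filter, ← Multiset.toFinset_sum_count_eq]
  set F := f.roots.filter (0 < ·) with hF
  calc ∑ i, μ i ≤ ∑ i, F.count (u i) := by
        refine Finset.sum_le_sum fun i _ => ?_
        rw [hF, Multiset.count_filter_of_pos (hS i).1, Polynomial.count_roots]
        exact (hS i).2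
    _ = ∑ x ∈ Finset.univ.image u, F.count x := by
        rw [Finset.sum_image fun i _ j _ h => hu h]
    _ = ∑ x ∈ (Finset.univ.image u).filter (fun x => F.count x ≠ 0), F.count x :=
        (Finset.sum_filter_ne_zero _).symm
    _ ≤ ∑ x ∈ F.toFinset, F.count x := by
      refine Finset.sum_le_sum_of_subset fun x hx => ?_
      rw [Finset.mem_filter] at hx
      rw [Multiset.mem_toFinset]
      exact Multiset.count_ne_zero.1 hx.2

/-- A polynomial with few terms which vanishes at many positive points. -/
lemma few' {ι κ : Type} [Fintype κ] (A : Finset ι) (f : ι → ℕ) (hf : Set.InjOn f A) (c : ι → ℝ)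
    (u : κ → ℝ) (hu : Function.Injective u) (hpos : ∀ i, 0 < u i) (μ : κ → ℕ)
    (h : ∀ i, ∀ a < μ i, ∑ α ∈ A, c α * (((f α).choose a : ℝ) * u i ^ (f α - a)) = 0)
    (hcard : A.card ≤ ∑ i, μ i) : ∀ α ∈ A, c α = 0 := by
  classical
  let q : Polynomial ℝ := ∑ α ∈ A, Polynomial.monomial (f α) (c α)
  have hcoef : ∀ α ∈ A, q.coeff (f α) = c α := by
    intro α hα
    simp only [q, Polynomial.finsetSum_coeff, Polynomial.coeff_monomial]
    rw [Finset.sum_eq_single α]
    · simp
    · intro β hβ hne
      rw [if_neg]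
      intro h1
      exact hne (hf hβ hα h1)
    · intro h1
      exact absurd hα h1
  by_cases hq : q = 0
  · intro α hα
    rw [← hcoef α hα, hq, Polynomial.coeff_zero]
  exfalso
  have hsupp : q.support.card ≤ A.card := by
    refine (Finset.card_le_card (?_ : q.support ⊆ A.image f)).trans Finset.card_image_le
    intro k hk
    rw [Polynomial.mem_support_iff] at hk
    simp only [q, Polynomial.finsetSum_coeff, Polynomial.coeff_monomial] at hk
    obtain ⟨α, hα, h1⟩ := Finset.exists_ne_zero_of_sum_ne_zero hk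
    rw [Finset.mem_image]
    refine ⟨α, hα, ?_⟩
    by_contra h2
    exact h1 (if_neg h2)
  have h1 := descartes' q hq u hu μ (fun i => ⟨hpos i, ?_⟩)
  · omega
  · rw [Polynomial.le_rootMultiplicity_iff hq]
    have h2 : Polynomial.X ^ μ i ∣ Polynomial.taylor (u i) q := by
      rw [Polynomial.X_pow_dvd_iff]
      intro a ha
      rw [Polynomial.taylor_coeff]
      simp only [q, map_sum, Polynomial.hasseDeriv_monomial, Polynomial.eval_finsetSum,
        Polynomial.eval_monomial]
      rw [← h i a ha]
      refine Finset.sum_congr rfl fun α _ => ?_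
      ring
    rw [Polynomial.taylor_apply] at h2
    exact Polynomial.X_sub_C_pow_dvd_iff.2 h2

/-- The number of the indices with given last exponents. -/
lemma card_fibre {n t k : ℕ} (ht : 1 ≤ t) (γ : Fin n →₀ ℕ) (A : Finset (Fin (n + 1) →₀ ℕ))
    (hA : ∀ α ∈ A, be t α = γ) (hk : ∀ α ∈ A, α.degree ≤ k) :
    A.card ≤ Hc n t (k - t * γ.degree) := by
  classical
  have h1 : Hc n t (k - t * γ.degree) = ((Finset.univ : Finset (Fin n → Fin t)).sigma
      fun d => Finset.range (k - t * γ.degree + 1 - ∑ i, (d i : ℕ))).card := by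
    rw [Finset.card_sigma]
    unfold Hc
    refine Finset.sum_congr rfl fun d _ => ?_
    rw [Finset.card_range]
  rw [h1]
  refine Finset.card_le_card_of_injOn
    (fun α => (⟨fun i : Fin n => ⟨α i.castSucc % t, Nat.mod_lt _ ht⟩, α (Fin.last n)⟩ :
      (_ : Fin n → Fin t) × ℕ)) (fun α hα => ?_) (fun α hα β hβ he => ?_)
  · have h2 := hk α hα
    have h3 := hA α hα
    rw [Finset.mem_coe, Finset.mem_sigma, Finset.mem_range]
    refine ⟨Finset.mem_univ _, ?_⟩
    simp only
    have h4 : α.degree = ∑ i : Fin n, α i.castSucc % t + t * γ.degree + α (Fin.last n) := by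
      rw [degree_snoc, Finsupp.degree_eq_sum, Finset.mul_sum, ← Finset.sum_add_distrib]
      congr 1
      refine Finset.sum_congr rfl fun i _ => ?_
      rw [← h3, be_apply]
      exact (Nat.mod_add_div _ _).symm
    omega
  · simp only [Sigma.mk.injEq, heq_eq_eq] at he
    refine ext_last (fun i => ?_) he.2
    have h5 : α i.castSucc % t = β i.castSucc % t := by
      have := congrFun he.1 i
      simpa using this
    have h6 := DFunLike.congr_fun ((hA α hα).trans (hA β hβ).symm) i
    rw [be_apply, be_apply] at h6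
    rw [← Nat.div_add_mod (α i.castSucc) t, ← Nat.div_add_mod (β i.castSucc) t, h6, h5]

lemma t_be_le {n t : ℕ} (α : Fin (n + 1) →₀ ℕ) : t * (be t α).degree ≤ α.degree := by
  rw [degree_snoc, Finsupp.degree_eq_sum, Finset.mul_sum]
  refine le_trans (Finset.sum_le_sum fun i _ => ?_) (Nat.le_add_right _ _)
  rw [be_apply]
  exact Nat.mul_div_le _ _

/-- Coefficients of the Taylor expansion of the coefficient of `s ^ γ`. -/
noncomputable def Tc {n : ℕ} (t : ℕ) (G : MvPolynomial (Fin (n + 1)) ℝ) (γ : Fin n →₀ ℕ) (a : ℕ)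
    (x : ℝ) : ℝ := by
  classical
  exact ∑ α ∈ G.support.filter (fun α => be t α = γ),
    coeff α G * (((ex t α 0).choose a : ℝ) * x ^ (ex t α 0 - a))

lemma Tc_zero {n : ℕ} {t : ℕ} {G : MvPolynomial (Fin (n + 1)) ℝ} {γ : Fin n →₀ ℕ}
    (h : ∀ α ∈ G.support, be t α ≠ γ) (a : ℕ) (x : ℝ) : Tc t G γ a x = 0 := by
  classical
  unfold Tc
  rw [Finset.filter_false_of_mem h, Finset.sum_empty]

/-- The last `n` coordinates of the points. -/
noncomputable def pt (n i : ℕ) (l : Fin n) : ℝ := if i = l then 1 else 0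

lemma cond_curve {n t : ℕ} {G : MvPolynomial (Fin (n + 1)) ℝ} {i a : ℕ} {γ : Fin n →₀ ℕ} {u : ℝ}
    (hi : n ≤ i) (h : ∑ α ∈ G.support, coeff α G * ((((ex t α 0).choose a : ℝ) *
      u ^ (ex t α 0 - a)) * ∏ l, (((be t α l).choose (γ l) : ℝ) *
        (pt n i l) ^ (be t α l - γ l))) = 0) : Tc t G γ a u = 0 := by
  classical
  unfold Tc
  rw [← h, ← Finset.sum_subset (Finset.filter_subset (fun α => be t α = γ) G.support)]
  · refine Finset.sum_congr rfl fun α hα => ?_
    rw [Finset.prod_eq_one, mul_one]
    intro l _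
    rw [(Finset.mem_filter.1 hα).2, Nat.choose_self, Nat.sub_self, pow_zero, Nat.cast_one, mul_one]
  · intro α hα hα2
    have h2 : be t α ≠ γ := fun h3 => hα2 (Finset.mem_filter.2 ⟨hα, h3⟩)
    obtain ⟨l, hl⟩ : ∃ l, be t α l ≠ γ l := by
      by_contra h3
      push Not at h3
      exact h2 (Finsupp.ext h3)
    rw [Finset.prod_eq_zero (Finset.mem_univ l), mul_zero, mul_zero]
    rcases lt_or_gt_of_ne hl with h3 | h3
    · rw [Nat.choose_eq_zero_of_lt h3, Nat.cast_zero, zero_mul]
    · have h4 : pt n i l = 0 := by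
        unfold pt
        rw [if_neg]
        have := l.2
        omega
      rw [h4, zero_pow (by omega), mul_zero]

lemma cond_off {n t : ℕ} {G : MvPolynomial (Fin (n + 1)) ℝ} {a : ℕ} {γ : Fin n →₀ ℕ} {u : ℝ}
    (l : Fin n) (K : ℕ) (hK : ∀ α ∈ G.support, be t α l < K)
    (h : ∑ α ∈ G.support, coeff α G * ((((ex t α 0).choose a : ℝ) *
      u ^ (ex t α 0 - a)) * ∏ l', (((be t α l').choose (γ l') : ℝ) *
        (pt n l l') ^ (be t α l' - γ l'))) = 0) :
    ∑ x ∈ Finset.range K, Tc t G (γ.update l x) a u *
      (((x.choose (γ l) : ℕ) : ℝ) * (1 : ℝ) ^ (x - γ l)) = 0 := by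
  classical
  rw [← h]
  unfold Tc
  simp only [Finset.sum_mul]
  rw [Finset.sum_sigma']
  -- the sum over the pairs is a sum over the support
  rw [← Finset.sum_subset (Finset.filter_subset (fun α => ∀ l' ≠ l, be t α l' = γ l') G.support)]
  · refine Finset.sum_bij' (fun p _ => p.2) (fun α _ => ⟨be t α l, α⟩) ?_ ?_ ?_ ?_ ?_
    · rintro ⟨x, α⟩ hp
      rw [Finset.mem_sigma, Finset.mem_range, Finset.mem_filter] at hp
      refine Finset.mem_filter.2 ⟨hp.2.1, fun l' hl' => ?_⟩
      rw [hp.2.2, Finsupp.update_apply, if_neg hl']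
    · intro α hα
      rw [Finset.mem_filter] at hα
      rw [Finset.mem_sigma, Finset.mem_range, Finset.mem_filter]
      refine ⟨hK α hα.1, hα.1, ?_⟩
      ext l'
      rw [Finsupp.update_apply]
      split_ifs with h1
      · rw [h1]
      · exact hα.2 l' h1
    · rintro ⟨x, α⟩ hp
      rw [Finset.mem_sigma, Finset.mem_range, Finset.mem_filter] at hp
      have h1 : be t α l = x := by rw [hp.2.2, Finsupp.update_apply, if_pos rfl]
      simp only [h1]
    · intro α _
      rfl
    · rintro ⟨x, α⟩ hp
      rw [Finset.mem_sigma, Finset.mem_range, Finset.mem_filter] at hp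
      have h1 : be t α = γ.update l x := hp.2.2
      simp only
      rw [← Finset.mul_prod_erase _ _ (Finset.mem_univ l), Finset.prod_eq_one (s := _)]
      · rw [h1, Finsupp.update_apply, if_pos rfl]
        simp only [pt, if_true]
        ring
      · intro l' hl'
        have h2 : l' ≠ l := (Finset.mem_erase.1 hl').1
        rw [h1, Finsupp.update_apply, if_neg h2, Nat.choose_self, Nat.sub_self, pow_zero,
          Nat.cast_one, mul_one]
  · intro α hα hα2
    obtain ⟨l', hl', h3⟩ : ∃ l', l' ≠ l ∧ be t α l' ≠ γ l' := by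
      by_contra h3
      push Not at h3
      exact hα2 (Finset.mem_filter.2 ⟨hα, h3⟩)
    rw [Finset.prod_eq_zero (Finset.mem_univ l'), mul_zero, mul_zero]
    rcases lt_or_gt_of_ne h3 with h4 | h4
    · rw [Nat.choose_eq_zero_of_lt h4, Nat.cast_zero, zero_mul]
    · have h5 : pt n l l' = 0 := by
        unfold pt
        rw [if_neg]
        intro h6
        exact hl' (Fin.ext h6.symm)
      rw [h5, zero_pow (by omega), mul_zero]

end J17

open J13 J17 in
/-- No polynomial of the model of degree at most `t * m + c` has multiplicity `m` at the chosen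
points. -/
theorem tmodel2 (n t m c i₁ q r : ℕ) (ht : 1 ≤ t) (hr : t ^ (n + 1) ≤ r) (hn : n ≤ r)
    (hq1 : 1 ≤ q) (hq : i₁ + c / t ≤ q)
    (hR1 : ∀ i, i₁ ≤ i → Hc n t (t * i + c) + n * q ≤ t ^ (n + 1) * i)
    (hR2 : ∀ b, m < b + i₁ → t * b ≤ t * m + c →
      (Hc n t (t * m + c - t * b) : ℤ) ≤ (n : ℤ) * ((m : ℤ) + 1 - b - q) + b +
        (((t ^ (n + 1) : ℕ) : ℤ) - n) * ((m - b : ℕ) : ℤ)) :
    ∃ P : Fin r → Fin (n + 1) → ℝ, (Function.Injective fun i => P i 0) ∧
      ∀ G : MvPolynomial (Fin (n + 1)) ℝ, G.totalDegree ≤ t * m + c →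
        (∀ i, ∀ a : Fin (n + 1) →₀ ℕ, a.degree < m → coeff a (shift (P i) (Th t G)) = 0) →
        G = 0 := by
  classical
  obtain ⟨r', rfl⟩ : ∃ r', r = n + r' := ⟨r - n, by omega⟩
  have hinj : Function.Injective fun i : Fin (n + r') => ((i : ℕ) : ℝ) + 1 := by
    intro i i' h
    have h1 : ((i : ℕ) : ℝ) = ((i' : ℕ) : ℝ) := by simpa using h
    exact Fin.ext (by exact_mod_cast h1)
  refine ⟨fun i => Fin.cons (((i : ℕ) : ℝ) + 1) (pt n i), ?_, fun G hG h => ?_⟩
  · intro i i' h
    apply hinj
    simpa using h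
  have hdeg : ∀ α ∈ G.support, α.degree ≤ t * m + c := fun α hα =>
    (le_totalDegree' hα).trans hG
  -- the conditions
  have hcond : ∀ (i : Fin (n + r')) (a0 : ℕ) (γ : Fin n →₀ ℕ), a0 + γ.degree < m →
      ∑ α ∈ G.support, coeff α G * ((((ex t α 0).choose a0 : ℝ) *
        (((i : ℕ) : ℝ) + 1) ^ (ex t α 0 - a0)) *
        ∏ l, (((be t α l).choose (γ l) : ℝ) * (pt n i l) ^ (be t α l - γ l))) = 0 := by
    intro i a0 γ ha
    have h1 := h i (Finsupp.cons a0 γ) (by rw [degree_cons]; exact ha)
    rw [shift_Th] at h1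
    rw [← h1]
    refine Finset.sum_congr rfl fun α _ => ?_
    rw [Fin.prod_univ_succ]
    simp only [Finsupp.cons_zero, Finsupp.cons_succ, Fin.cons_zero, Fin.cons_succ,
      ex_succ, be_apply]
  obtain ⟨k, hk⟩ : ∃ k, k = t * m + c := ⟨_, rfl⟩
  have hbe : ∀ α ∈ G.support, t * (be t α).degree ≤ t * m + c := fun α hα =>
    (t_be_le α).trans (hdeg α hα)
  -- the coefficient of `s ^ γ` is zero if it has many zeros
  have kill : ∀ (γ : Fin n →₀ ℕ) (x : Fin n → ℕ),
      (∀ l, ∀ a < x l, Tc t G γ a (((l : ℕ) : ℝ) + 1) = 0) →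
      Hc n t (t * m + c - t * γ.degree) ≤ ∑ l, x l + r' * (m - γ.degree) →
      ∀ α ∈ G.support, be t α ≠ γ := by
    intro γ x hx hcard α hα hαγ
    have h1 := few' (G.support.filter fun α => be t α = γ) (fun α => ex t α 0)
      (fun α hα β hβ he => by
        apply ex_inj ht
        ext l
        refine Fin.cases he (fun i => ?_) l
        have h1 := DFunLike.congr_fun (((Finset.mem_filter.1 hα).2).trans
          (Finset.mem_filter.1 hβ).2.symm) i
        rw [be_apply, be_apply] at h1
        rw [ex_succ, ex_succ, h1])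
      (fun α => coeff α G) (fun i : Fin (n + r') => ((i : ℕ) : ℝ) + 1) hinj
      (fun i => by positivity) (Fin.append x fun _ => m - γ.degree) (fun i a ha => ?_) ?_
      α (Finset.mem_filter.2 ⟨hα, hαγ⟩)
    · exact mem_support_iff.1 hα h1
    · induction i using Fin.addCases with
      | left l =>
        rw [Fin.append_left] at ha
        have h2 := hx l a ha
        unfold Tc at h2
        simpa using h2
      | right j =>
        rw [Fin.append_right] at ha
        have h2 := cond_curve (i := ((Fin.natAdd n j : Fin (n + r')) : ℕ)) (by simp)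
          (hcond (Fin.natAdd n j) a γ (by omega))
        unfold Tc at h2
        exact h2
    · rw [Fin.sum_univ_add]
      simp only [Fin.append_left, Fin.append_right, Finset.sum_const, Finset.card_univ,
        Fintype.card_fin, smul_eq_mul]
      refine le_trans ?_ hcard
      exact card_fibre ht γ _ (fun α hα => (Finset.mem_filter.1 hα).2)
        (fun α hα => hdeg α (Finset.mem_filter.1 hα).1)
  -- the conditions at the points outside of the curve
  have line : ∀ (l : Fin n) (γ : Fin n →₀ ℕ) (a : ℕ),
      ((Finset.range (t * m + c + 1)).filter fun x =>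
        ¬ ∀ α ∈ G.support, be t α ≠ (γ.erase l).update l x).card ≤
        m - (γ.erase l).degree - a → Tc t G γ a (((l : ℕ) : ℝ) + 1) = 0 := by
    intro l γ a hcard
    have hγ : (γ.erase l).update l (γ l) = γ := by
      ext l'
      rw [Finsupp.update_apply]
      split_ifs with h1
      · rw [h1]
      · rw [Finsupp.erase_ne h1]
    by_cases hZ : ∀ α ∈ G.support, be t α ≠ γ
    · exact Tc_zero hZ a _
    push Not at hZ
    obtain ⟨α0, hα0, hα0γ⟩ := hZ
    have hlt : ∀ α ∈ G.support, be t α l < t * m + c + 1 := by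
      intro α hα
      have h1 := hbe α hα
      have h2 : be t α l ≤ (be t α).degree := by
        rw [Finsupp.degree_eq_sum]
        exact Finset.single_le_sum (f := fun l => be t α l) (fun _ _ => Nat.zero_le _)
          (Finset.mem_univ l)
      have h3 : (be t α).degree ≤ t * (be t α).degree := Nat.le_mul_of_pos_left _ ht
      omega
    have hdu : ∀ x, ((γ.erase l).update l x).degree = (γ.erase l).degree + x := by
      intro x
      rw [Finsupp.degree_eq_sum, Finsupp.degree_eq_sum,
        ← Finset.add_sum_erase Finset.univ (fun i => ((γ.erase l).update l x) i)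
          (Finset.mem_univ l),
        ← Finset.add_sum_erase Finset.univ (fun i => (γ.erase l) i) (Finset.mem_univ l)]
      rw [Finsupp.update_apply, if_pos rfl, Finsupp.erase_same, zero_add, add_comm]
      congr 1
      refine Finset.sum_congr rfl fun i hi => ?_
      rw [Finsupp.update_apply, if_neg (Finset.mem_erase.1 hi).1]
    have hll : ((l : ℕ)) < n + r' := by
      have := l.2
      omega
    have h1 := few' (κ := Unit) ((Finset.range (t * m + c + 1)).filter fun x =>
        ¬ ∀ α ∈ G.support, be t α ≠ (γ.erase l).update l x) (fun x => x)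
      (fun _ _ _ _ he => he)
      (fun x => Tc t G ((γ.erase l).update l x) a (((l : ℕ) : ℝ) + 1))
      (fun _ => 1) (fun _ _ _ => rfl) (fun _ => one_pos)
      (fun _ => m - (γ.erase l).degree - a) (fun _ b hb => ?_) (by simpa using hcard)
      (γ l) ?_
    · rw [hγ] at h1
      exact h1
    · have h2 := cond_off (a := a) (u := ((l : ℕ) : ℝ) + 1) (γ := (γ.erase l).update l b) l
        (t * m + c + 1) hlt (hcond ⟨l, hll⟩ a ((γ.erase l).update l b) (by rw [hdu]; omega))
      have h3 : ∀ x, ((γ.erase l).update l b).update l x = (γ.erase l).update l x := by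
        intro x
        ext l'
        rw [Finsupp.update_apply, Finsupp.update_apply, Finsupp.update_apply]
        split_ifs <;> rfl
      simp only [h3, Finsupp.update_apply, if_true] at h2
      rw [← h2]
      refine Finset.sum_subset (Finset.filter_subset _ _) (fun x hx hx2 => ?_)
      have h4 : ∀ α ∈ G.support, be t α ≠ (γ.erase l).update l x := by
        by_contra h5
        exact hx2 (Finset.mem_filter.2 ⟨hx, h5⟩)
      rw [Tc_zero h4, zero_mul]
    · rw [Finset.mem_filter, Finset.mem_range]
      refine ⟨?_, fun h5 => ?_⟩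
      · rw [← hα0γ]
        exact hlt α0 hα0
      · rw [hγ] at h5
        exact h5 α0 hα0 hα0γ
  -- facts on the degrees
  have herase : ∀ (l : Fin n) (γ : Fin n →₀ ℕ), (γ.erase l).degree + γ l = γ.degree := by
    intro l γ
    rw [Finsupp.degree_eq_sum, Finsupp.degree_eq_sum,
      ← Finset.add_sum_erase Finset.univ (fun i => γ i) (Finset.mem_univ l),
      ← Finset.add_sum_erase Finset.univ (fun i => (γ.erase l) i) (Finset.mem_univ l),
      Finsupp.erase_same, zero_add, add_comm]
    congr 1
    refine Finset.sum_congr rfl fun i hi => ?_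
    rw [Finsupp.erase_ne (Finset.mem_erase.1 hi).1]
  have hdu : ∀ (l : Fin n) (γ : Fin n →₀ ℕ) (x : ℕ),
      ((γ.erase l).update l x).degree = (γ.erase l).degree + x := by
    intro l γ x
    have h1 := herase l ((γ.erase l).update l x)
    rw [Finsupp.update_apply, if_pos rfl] at h1
    rw [← h1]
    congr 2
    ext l'
    by_cases h2 : l' = l
    · rw [h2, Finsupp.erase_same, Finsupp.erase_same]
    · rw [Finsupp.erase_ne h2, Finsupp.update_apply, if_neg h2]
  -- the exponents `γ` with `|γ| + i₁ ≤ m`
  have zero : ∀ a, (∀ γ : Fin n →₀ ℕ, γ.degree + i₁ ≤ m → ∀ l : Fin n, ∀ a' < a,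
      Tc t G γ a' (((l : ℕ) : ℝ) + 1) = 0) → ∀ γ : Fin n →₀ ℕ, γ.degree + i₁ ≤ m →
      m ≤ γ.degree + a + q → ∀ α ∈ G.support, be t α ≠ γ := by
    intro a ha γ hγ hγ2
    refine kill γ (fun _ => a) (fun l a' ha' => ha γ hγ l a' ha') ?_
    obtain ⟨i, hi⟩ : ∃ i, m = γ.degree + i := ⟨m - γ.degree, by omega⟩
    have h1 : t * m + c - t * γ.degree = t * i + c := by
      rw [hi, mul_add]
      omega
    have h2 : m - γ.degree = i := by omega
    have h3 := hR1 i (by omega)
    rw [h1, h2, Finset.sum_const, Finset.card_univ, Fintype.card_fin, smul_eq_mul]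
    have h4 : t ^ (n + 1) * i ≤ (n + r') * i := Nat.mul_le_mul_right _ hr
    have h5 : n * i ≤ n * (a + q) := Nat.mul_le_mul_left _ (by omega)
    have h6 : (n + r') * i = n * i + r' * i := add_mul _ _ _
    have h7 : n * (a + q) = n * a + n * q := mul_add _ _ _
    omega
  have step : ∀ a, ∀ γ : Fin n →₀ ℕ, γ.degree + i₁ ≤ m → ∀ l : Fin n, ∀ a' < a,
      Tc t G γ a' (((l : ℕ) : ℝ) + 1) = 0 := by
    intro a
    induction a with
    | zero => intro γ _ l a' ha'; omega
    | succ a ih =>
      intro γ hγ l a' ha'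
      rcases Nat.lt_succ_iff_lt_or_eq.1 ha' with h1 | rfl
      · exact ih γ hγ l a' h1
      have hz := zero a' ih
      have he := herase l γ
      rcases le_or_gt (a' + q) (m - (γ.erase l).degree) with h2 | h2
      · apply line l γ a'
        obtain ⟨δ, hδ⟩ : ∃ δ, δ = (γ.erase l).degree := ⟨_, rfl⟩
        rw [← hδ] at h2 he ⊢
        have hsub : ((Finset.range (t * m + c + 1)).filter fun x =>
            ¬ ∀ α ∈ G.support, be t α ≠ (γ.erase l).update l x) ⊆
            Finset.Icc (m + 1 - i₁ - δ) (m + c / t - δ) ∪ Finset.range (m - δ - a' - q) := by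
          intro x hx
          have h3 := (Finset.mem_filter.1 hx).2
          have hd := hdu l γ x
          rw [← hδ] at hd
          have h4 : t * (δ + x) ≤ t * m + c := by
            push Not at h3
            obtain ⟨α, hα, hα2⟩ := h3
            have h5 := hbe α hα
            rwa [hα2, hd] at h5
          have h5 : δ + x ≤ m + c / t := by
            have h6 : δ + x ≤ (t * m + c) / t := (Nat.le_div_iff_mul_le ht).2 (by linarith)
            rwa [Nat.mul_add_div ht] at h6
          rw [Finset.mem_union, Finset.mem_Icc, Finset.mem_range]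
          by_contra h6
          apply h3
          refine hz _ ?_ ?_
          · rw [hd]; omega
          · rw [hd]; omega
        refine (Finset.card_le_card hsub).trans ((Finset.card_union_le _ _).trans ?_)
        rw [Nat.card_Icc, Finset.card_range]
        omega
      · exact Tc_zero (hz γ hγ (by omega)) _ _
  have big : ∀ γ : Fin n →₀ ℕ, γ.degree + i₁ ≤ m → ∀ α ∈ G.support, be t α ≠ γ :=
    fun γ hγ => zero m (step m) γ hγ (by omega)
  -- the other exponents
  have small : ∀ γ : Fin n →₀ ℕ, m < γ.degree + i₁ → ∀ α ∈ G.support, be t α ≠ γ := by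
    intro γ hγ
    by_contra hne
    have hle : t * γ.degree ≤ t * m + c := by
      push Not at hne
      obtain ⟨α, hα, hα2⟩ := hne
      have h5 := hbe α hα
      rwa [hα2] at h5
    apply hne
    refine kill γ (fun l => m - (γ.erase l).degree + 1 - q) (fun l a ha => ?_) ?_
    · apply line l γ a
      obtain ⟨δ, hδ⟩ : ∃ δ, δ = (γ.erase l).degree := ⟨_, rfl⟩
      rw [← hδ] at ha ⊢
      have hsub : ((Finset.range (t * m + c + 1)).filter fun x =>
          ¬ ∀ α ∈ G.support, be t α ≠ (γ.erase l).update l x) ⊆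
          Finset.Icc (m + 1 - i₁ - δ) (m + c / t - δ) := by
        intro x hx
        have h3 := (Finset.mem_filter.1 hx).2
        have hd := hdu l γ x
        rw [← hδ] at hd
        have h4 : t * (δ + x) ≤ t * m + c := by
          push Not at h3
          obtain ⟨α, hα, hα2⟩ := h3
          have h5 := hbe α hα
          rwa [hα2, hd] at h5
        have h5 : δ + x ≤ m + c / t := by
          have h6 : δ + x ≤ (t * m + c) / t := (Nat.le_div_iff_mul_le ht).2 (by linarith)
          rwa [Nat.mul_add_div ht] at h6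
        rw [Finset.mem_Icc]
        by_contra h6
        apply h3
        refine big _ ?_
        rw [hd]; omega
      refine (Finset.card_le_card hsub).trans ?_
      rw [Nat.card_Icc]
      omega
    · have h1 := hR2 γ.degree hγ hle
      have h2 : (n : ℤ) * ((m : ℤ) + 1 - γ.degree - q) + γ.degree ≤
          ((∑ l : Fin n, (m - (γ.erase l).degree + 1 - q) : ℕ) : ℤ) := by
        have h3 : (n : ℤ) * ((m : ℤ) + 1 - γ.degree - q) + γ.degree =
            ∑ l : Fin n, ((m : ℤ) + 1 - γ.degree - q + (γ l : ℤ)) := by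
          rw [Finset.sum_add_distrib, Finset.sum_const, Finset.card_univ, Fintype.card_fin,
            nsmul_eq_mul]
          congr 1
          rw [Finsupp.degree_eq_sum]
          push_cast
          rfl
        rw [h3]
        push_cast
        refine Finset.sum_le_sum fun l _ => ?_
        have h4 := herase l γ
        omega
      have h3 : (((t ^ (n + 1) : ℕ) : ℤ) - n) * ((m - γ.degree : ℕ) : ℤ) ≤
          (r' : ℤ) * ((m - γ.degree : ℕ) : ℤ) := by
        refine mul_le_mul_of_nonneg_right ?_ (by positivity)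
        have : ((t ^ (n + 1) : ℕ) : ℤ) ≤ ((n + r' : ℕ) : ℤ) := by exact_mod_cast hr
        push_cast at this ⊢
        linarith
      have h4 : ((Hc n t (t * m + c - t * γ.degree) : ℕ) : ℤ) ≤
          ((∑ l : Fin n, (m - (γ.erase l).degree + 1 - q) + r' * (m - γ.degree) : ℕ) : ℤ) := by
        rw [Nat.cast_add, Nat.cast_mul]
        linarith
      exact_mod_cast h4
  by_contra hG0
  obtain ⟨α, hα⟩ := support_nonempty.2 hG0
  rcases le_or_gt ((be t α).degree + i₁) m with h1 | h1
  · exact big _ h1 α hα rfl
  · exact small _ h1 α hα rfl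

end Pool.Agent.TH176.FB
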