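import Pool.Agent.H15.G.R_seed8.TH176.FB.Hc

/-!
The Hilbert function `Hc` for `n = 2`: two bounds.
-/

set_option autoImplicit false

namespace Pool.Agent.TH176.FB

namespace J21

/-- the sum over pairs -/
lemma sum_two (t : ℕ) (f : ℕ → ℕ) :
    ∑ d : Fin 2 → Fin t, f (∑ i, (d i : ℕ)) =
      ∑ a ∈ Finset.range t, ∑ b ∈ Finset.range t, f (a + b) := by
  rw [← Equiv.sum_comp (finTwoArrowEquiv (Fin t)).symm (fun d => f (∑ i, (d i : ℕ))),
    Fintype.sum_prod_type, Finset.sum_range]
  refine Finset.sum_congr rfl fun a _ => ?_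
  rw [Finset.sum_range]
  refine Finset.sum_congr rfl fun b _ => ?_
  simp [finTwoArrowEquiv]

lemma tri (t : ℕ) : ∀ m : ℕ, ∑ b ∈ Finset.range t, (m - b) ≤ (m + 1).choose 2 := by
  induction t with
  | zero => intro m; simp
  | succ t ih =>
    intro m
    cases m with
    | zero => simp
    | succ m =>
      rw [Finset.sum_range_succ']
      have h1 : ∀ b ∈ Finset.range t, m + 1 - (b + 1) = m - b := fun b _ => by omega
      rw [Finset.sum_congr rfl h1]
      have h2 := ih m
      have h3 : (m + 1 + 1).choose 2 = (m + 1) + (m + 1).choose 2 := by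
        rw [Nat.choose_succ_succ' (m + 1) 1, Nat.choose_one_right]
      rw [h3, add_comm (m + 1)]
      exact Nat.add_le_add h2 le_rfl

lemma tet (t : ℕ) : ∀ m : ℕ, ∑ a ∈ Finset.range t, (m - a + 1).choose 2 ≤ (m + 2).choose 3 := by
  induction t with
  | zero => intro m; simp
  | succ t ih =>
    intro m
    cases m with
    | zero =>
      have h1 : ∀ a ∈ Finset.range (t + 1), (0 - a + 1).choose 2 = 0 := fun a _ => by
        simp
      rw [Finset.sum_congr rfl h1]
      simp
    | succ m =>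
      rw [Finset.sum_range_succ']
      have h1 : ∀ a ∈ Finset.range t, (m + 1 - (a + 1) + 1).choose 2 = (m - a + 1).choose 2 :=
        fun a _ => by
          have : m + 1 - (a + 1) = m - a := by omega
          rw [this]
      rw [Finset.sum_congr rfl h1]
      have h2 := ih m
      have h3 : (m + 1 + 2).choose 3 = (m + 2).choose 2 + (m + 2).choose 3 :=
        Nat.choose_succ_succ' (m + 2) 2
      have h4 : (m + 1 - 0 + 1).choose 2 = (m + 2).choose 2 := rfl
      rw [h4, h3]
      omega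

end J21

theorem Hc_two_le (t c : ℕ) : Hc 2 t c ≤ (c + 3).choose 3 := by
  unfold Hc
  rw [J21.sum_two t (fun s => c + 1 - s)]
  refine le_trans (Finset.sum_le_sum fun a _ => ?_) (J21.tet t (c + 1))
  refine le_trans (le_of_eq ?_) (J21.tri t (c + 1 - a))
  refine Finset.sum_congr rfl fun b _ => ?_
  omega

theorem Hc_two_R1 (t c : ℕ) (h : c + 3 ≤ t) : Hc 2 t (t + c) + 2 ≤ t ^ 3 := by
  have h1 : Hc 2 t (t + c) + ∑ d : Fin 2 → Fin t, (∑ i, (d i : ℕ)) ≤ 2 * (t - 1) * t ^ 2 := by
    unfold Hc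
    rw [← Finset.sum_add_distrib]
    have h2 : 2 * (t - 1) * t ^ 2 = ∑ _d : Fin 2 → Fin t, 2 * (t - 1) := by
      rw [Finset.sum_const, Finset.card_univ, Fintype.card_fun, Fintype.card_fin,
        Fintype.card_fin, smul_eq_mul, mul_comm]
    rw [h2]
    refine Finset.sum_le_sum fun d _ => ?_
    rw [Fin.sum_univ_two]
    have h3 := (d 0).isLt
    have h4 := (d 1).isLt
    omega
  have h2 : ∑ d : Fin 2 → Fin t, (∑ i, (d i : ℕ)) = (t - 1) * t ^ 2 := by
    rw [J21.sum_two t (fun s => s)]
    have h3 : ∀ a ∈ Finset.range t, ∑ b ∈ Finset.range t, (a + b) =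
        a * t + ∑ b ∈ Finset.range t, b := fun a _ => by
      rw [Finset.sum_add_distrib, Finset.sum_const, Finset.card_range, smul_eq_mul, mul_comm]
    rw [Finset.sum_congr rfl h3, Finset.sum_add_distrib, ← Finset.sum_mul, Finset.sum_const,
      Finset.card_range, smul_eq_mul]
    have h4 := Finset.sum_range_id_mul_two t
    calc (∑ i ∈ Finset.range t, i) * t + t * ∑ b ∈ Finset.range t, b
        = ((∑ i ∈ Finset.range t, i) * 2) * t := by ring
      _ = (t - 1) * t ^ 2 := by rw [h4]; ring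
  rw [h2] at h1
  obtain ⟨s, rfl⟩ : ∃ s, t = s + 3 := ⟨t - 3, by omega⟩
  have h3 : s + 3 - 1 = s + 2 := by omega
  rw [h3] at h1
  nlinarith

end Pool.Agent.TH176.FB
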