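import Mathlib

/-!
# The number of positive roots with multiplicities is smaller than the number of terms
-/

set_option autoImplicit false

namespace Pool.Agent.TH176.FB

namespace J12

open Polynomial

/-- the number of sign variations is smaller than the number of terms -/
theorem signVariations_lt : ∀ (n : ℕ) (f : Polynomial ℝ), f.support.card = n → f ≠ 0 →
    f.signVariations < n := by
  intro n
  induction n with
  | zero =>
    intro f hn hf
    exact absurd (Polynomial.support_eq_empty.1 (Finset.card_eq_zero.1 hn)) hf
  | succ n ih =>
    intro f hn hf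
    have h1 : f.eraseLead.support.card = n := Polynomial.card_support_eraseLead' hn
    have h2 := Polynomial.signVariations_le_eraseLead_succ (P := f)
    by_cases h0 : f.eraseLead = 0
    · have h3 : f = monomial f.natDegree f.leadingCoeff := by
        have := Polynomial.eraseLead_add_monomial_natDegree_leadingCoeff f
        rw [h0, zero_add] at this
        exact this.symm
      rw [h3, signVariations_monomial]
      omega
    · have := ih f.eraseLead h1 h0
      omega

theorem mul_card_le (f : Polynomial ℝ) (S : Finset ℝ) (m : ℕ)
    (hS : ∀ x ∈ S, 0 < x ∧ m ≤ f.rootMultiplicity x) :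
    m * S.card ≤ f.roots.countP (0 < ·) := by
  classical
  rw [Multiset.countP_eq_card_filter, ← Multiset.toFinset_sum_count_eq]
  set F := f.roots.filter (0 < ·) with hF
  calc m * S.card = ∑ _x ∈ S, m := by rw [Finset.sum_const, smul_eq_mul, mul_comm]
    _ ≤ ∑ x ∈ S, F.count x := by
      refine Finset.sum_le_sum fun x hx => ?_
      rw [hF, Multiset.count_filter_of_pos (hS x hx).1, Polynomial.count_roots]
      exact (hS x hx).2
    _ = ∑ x ∈ S.filter (fun x => F.count x ≠ 0), F.count x := (Finset.sum_filter_ne_zero S).symm
    _ ≤ ∑ x ∈ F.toFinset, F.count x := by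
      refine Finset.sum_le_sum_of_subset fun x hx => ?_
      rw [Finset.mem_filter] at hx
      rw [Multiset.mem_toFinset]
      exact Multiset.count_ne_zero.1 hx.2

end J12

theorem descartes (f : Polynomial ℝ) (hf : f ≠ 0) (S : Finset ℝ) (m : ℕ)
    (hS : ∀ x ∈ S, 0 < x ∧ m ≤ f.rootMultiplicity x) : m * S.card < f.support.card :=
  ((J12.mul_card_le f S m hS).trans (Polynomial.roots_countP_pos_le_signVariations f)).trans_lt
    (J12.signVariations_lt _ f rfl hf)

end Pool.Agent.TH176.FB
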